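import Pool.Agent.Lib.Pf720gs.GMain
import Pool.Agent.Lib.Pf720pi.Final

/-!
# Gaussian factors of actions of `ℤ^d`
-/

set_option autoImplicit false
set_option linter.unusedSectionVars false

open MeasureTheory Filter Topology ProbabilityTheory
open scoped ENNReal

namespace Pool.Agent.Lib.Pf720gs

open Pool.Agent.Lib.Pf720ae Pool.Agent.Lib.Pf720pi

/-- the characteristic function at one of a centred Gaussian variable -/
lemma char_of_hasGaussianLaw {X : Type} {mX : MeasurableSpace X} {μ : Measure X}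
    [IsProbabilityMeasure μ] {Y : X → ℝ} (hY : HasGaussianLaw Y μ) :
    ∫ x, Complex.exp (((Y x - ∫ z, Y z ∂μ : ℝ) : ℂ) * Complex.I) ∂μ =
      ((Real.exp (-(∫ x, (Y x - ∫ z, Y z ∂μ) * (Y x - ∫ z, Y z ∂μ) ∂μ) / 2) : ℝ) : ℂ) := by
  set m : ℝ := ∫ z, Y z ∂μ with hm
  have hvar : Var[Y; μ] = ∫ x, (Y x - m) * (Y x - m) ∂μ := by
    rw [variance_eq_integral hY.aemeasurable]
    refine integral_congr_ae (Eventually.of_forall fun x => ?_)
    simp only
    ring
  have hvar0 : 0 ≤ Var[Y; μ] := variance_nonneg _ _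
  have h1 : ∫ x, Complex.exp ((Y x : ℂ) * Complex.I) ∂μ =
      Complex.exp ((m : ℂ) * Complex.I - (Var[Y; μ] : ℂ) / 2) := by
    have h2 := charFun_gaussianReal (μ := m) (v := Var[Y; μ].toNNReal) 1
    rw [← hY.map_eq_gaussianReal, charFun_apply_real,
      integral_map hY.aemeasurable (by fun_prop)] at h2
    simp only [Complex.ofReal_one, one_mul, one_pow, mul_one] at h2
    rw [h2]
    congr 3
    rw [Real.coe_toNNReal _ hvar0]
  have h3 : ∀ x, Complex.exp (((Y x - m : ℝ) : ℂ) * Complex.I) =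
      Complex.exp (-(m : ℂ) * Complex.I) * Complex.exp ((Y x : ℂ) * Complex.I) := by
    intro x
    rw [← Complex.exp_add]
    congr 1
    push_cast
    ring
  simp only [h3]
  rw [integral_const_mul, h1, ← Complex.exp_add, ← hvar, Complex.ofReal_exp]
  congr 1
  push_cast
  ring

section fam

variable {P X : Type} {mX : MeasurableSpace X} {μ : Measure X} [IsProbabilityMeasure μ]

/-- the uncentred linear combinations -/
noncomputable def lc (ξ : P → X → ℝ) (v : P →₀ ℝ) (x : X) : ℝ :=
  Finsupp.linearCombination ℝ ξ v x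

lemma lc_eq_sum (ξ : P → X → ℝ) (v : P →₀ ℝ) (x : X) :
    lc ξ v x = ∑ p ∈ v.support, v p * ξ p x := by
  unfold lc
  rw [Finsupp.linearCombination_apply, Finsupp.sum, Finset.sum_apply]
  rfl

lemma lc_add (ξ : P → X → ℝ) (u v : P →₀ ℝ) (x : X) : lc ξ (u + v) x = lc ξ u x + lc ξ v x := by
  unfold lc
  rw [map_add, Pi.add_apply]

lemma lc_smul (ξ : P → X → ℝ) (c : ℝ) (v : P →₀ ℝ) (x : X) :
    lc ξ (c • v) x = c * lc ξ v x := by
  unfold lc
  rw [map_smul, Pi.smul_apply, smul_eq_mul]

lemma lc_single (ξ : P → X → ℝ) (p : P) (x : X) : lc ξ (Finsupp.single p 1) x = ξ p x := by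
  unfold lc
  rw [Finsupp.linearCombination_single, one_smul]

lemma measurable_lc {ξ : P → X → ℝ} (hξ : ∀ p, Measurable (ξ p)) (v : P →₀ ℝ) :
    Measurable (lc ξ v) := by
  have : lc ξ v = fun x => ∑ p ∈ v.support, v p * ξ p x := by
    funext x
    exact lc_eq_sum ξ v x
  rw [this]
  exact Finset.measurable_fun_sum _ fun p _ => (hξ p).const_mul _

lemma hasGaussianLaw_lc {ξ : P → X → ℝ} (hξ : IsGaussianProcess ξ μ) (v : P →₀ ℝ) :
    HasGaussianLaw (lc ξ v) μ := by
  have : lc ξ v = fun x => ∑ p ∈ v.support, v p • ξ p x := by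
    funext x
    rw [lc_eq_sum]
    rfl
  rw [this]
  exact (hξ.smul fun p => v p).hasGaussianLaw_fun_sum

/-- the centred linear family of a Gaussian process -/
noncomputable def famG (μ : Measure X) (ξ : P → X → ℝ) (v : P →₀ ℝ) (x : X) : ℝ :=
  lc ξ v x - ∫ z, lc ξ v z ∂μ

lemma memLp_famG {ξ : P → X → ℝ} (hξ : IsGaussianProcess ξ μ) (v : P →₀ ℝ) :
    MemLp (famG μ ξ v) 2 μ :=
  (hasGaussianLaw_lc hξ v).memLp_two.sub (memLp_const _)

lemma famG_add {ξ : P → X → ℝ} (hξ : IsGaussianProcess ξ μ) (u v : P →₀ ℝ) (x : X) :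
    famG μ ξ (u + v) x = famG μ ξ u x + famG μ ξ v x := by
  unfold famG
  simp only [lc_add]
  rw [integral_add (hasGaussianLaw_lc hξ u).integrable (hasGaussianLaw_lc hξ v).integrable]
  ring

lemma famG_smul (ξ : P → X → ℝ) (c : ℝ) (v : P →₀ ℝ) (x : X) :
    famG μ ξ (c • v) x = c * famG μ ξ v x := by
  unfold famG
  simp only [lc_smul]
  rw [integral_const_mul]
  ring

/-- the centred linear family of a Gaussian process -/
noncomputable def fam {ξ : P → X → ℝ} (hξm : ∀ p, Measurable (ξ p))
    (hξ : IsGaussianProcess ξ μ) : GF (P →₀ ℝ) X μ where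
  G := famG μ ξ
  meas v := (measurable_lc hξm v).sub_const _
  add := famG_add hξ
  smul := famG_smul ξ
  B := LinearMap.mk₂ ℝ (fun u v => ∫ x, famG μ ξ u x * famG μ ξ v x ∂μ)
    (fun u u' v => by
      have h1 : Integrable (fun x => famG μ ξ u x * famG μ ξ v x) μ :=
        (memLp_famG hξ u).integrable_mul (memLp_famG hξ v)
      have h2 : Integrable (fun x => famG μ ξ u' x * famG μ ξ v x) μ :=
        (memLp_famG hξ u').integrable_mul (memLp_famG hξ v)
      rw [← integral_add h1 h2]
      refine integral_congr_ae (Eventually.of_forall fun x => ?_)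
      simp only [famG_add hξ]
      ring)
    (fun c u v => by
      rw [smul_eq_mul, ← integral_const_mul]
      refine integral_congr_ae (Eventually.of_forall fun x => ?_)
      simp only [famG_smul]
      ring)
    (fun u v v' => by
      have h1 : Integrable (fun x => famG μ ξ u x * famG μ ξ v x) μ :=
        (memLp_famG hξ u).integrable_mul (memLp_famG hξ v)
      have h2 : Integrable (fun x => famG μ ξ u x * famG μ ξ v' x) μ :=
        (memLp_famG hξ u).integrable_mul (memLp_famG hξ v')
      rw [← integral_add h1 h2]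
      refine integral_congr_ae (Eventually.of_forall fun x => ?_)
      simp only [famG_add hξ]
      ring)
    (fun c u v => by
      rw [smul_eq_mul, ← integral_const_mul]
      refine integral_congr_ae (Eventually.of_forall fun x => ?_)
      simp only [famG_smul]
      ring)
  Bsymm u v := by
    simp only [LinearMap.mk₂_apply]
    refine integral_congr_ae (Eventually.of_forall fun x => ?_)
    simp only
    ring
  char v := by
    simp only [LinearMap.mk₂_apply]
    exact char_of_hasGaussianLaw (hasGaussianLaw_lc hξ v)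

end fam

/-- restriction of a linear Gaussian family to a smaller σ-algebra -/
noncomputable def GF.trim {V X : Type} [AddCommGroup V] [Module ℝ V] {mX : MeasurableSpace X}
    {μ : Measure X} (g : GF V X μ) (m : MeasurableSpace X) (hm : m ≤ mX)
    (hg : ∀ v, Measurable[m] (g.G v)) : @GF V X _ _ m (μ.trim hm) :=
  letI := m
  { G := g.G
    meas := hg
    add := g.add
    smul := g.smul
    B := g.B
    Bsymm := g.Bsymm
    char := by
      intro v
      rw [← integral_trim hm, g.char]
      have h1 : Measurable[m] fun x => Complex.exp ((g.G v x : ℂ) * Complex.I) := by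
        have := hg v
        exact Complex.measurable_exp.comp
          ((Complex.measurable_ofReal.comp this).mul_const _)
      exact h1.stronglyMeasurable }

/-- the sub-σ-algebra restriction of a measure-preserving map -/
lemma mp_trim {X : Type} (m : MeasurableSpace X) {mX : MeasurableSpace X} {μ : Measure X}
    (hm : m ≤ mX) {W : X → X} (hW : MeasurePreserving W μ μ) (hWm : Measurable[m, m] W) :
    @MeasurePreserving X X m m W (μ.trim hm) (μ.trim hm) := by
  refine @MeasurePreserving.mk X X m m W (μ.trim hm) (μ.trim hm) hWm ?_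
  refine @Measure.ext _ m _ _ fun s hs => ?_
  rw [@Measure.map_apply X X m m _ _ hWm _ hs, trim_measurableSet_eq hm (hWm hs),
    trim_measurableSet_eq hm hs, hW.measure_preimage (hm s hs).nullMeasurableSet]

/-- restriction of an action to a smaller invariant σ-algebra -/
def trimAct {Γ X : Type} [AddCommGroup Γ] (m : MeasurableSpace X) {mX : MeasurableSpace X}
    {μ : Measure X} (act : MAct Γ X μ) (hm : m ≤ mX)
    (hact : ∀ w, Measurable[m, m] (act.S w)) : @MAct Γ X _ m (μ.trim hm) :=
  @MAct.mk Γ X _ m (μ.trim hm) act.S act.zero act.add fun w => mp_trim m hm (act.mp w) (hact w)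

/-- passing from a trimmed measure to the measure -/
lemma linC_of_trim {X : Type} (m : MeasurableSpace X) {mX : MeasurableSpace X} {μ : Measure X}
    [IsProbabilityMeasure μ] {d : ℕ} (T : Fin d → Equiv.Perm X)
    (hT : ∀ i, Measurable (T i) ∧ Measurable (T i).symm ∧ MeasurePreserving (T i) μ μ)
    (hm : m ≤ mX) (h : @LinC X m (μ.trim hm) d T m) : LinC μ T m := by
  intro k n A c f hf
  choose hfL hfm using hf
  set g : Fin n → X → ℂ := fun j => (hfm j).mk (f j) with hg
  have hgm : ∀ j, StronglyMeasurable[m] (g j) := fun j => (hfm j).stronglyMeasurable_mk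
  have hfg : ∀ j, f j =ᵐ[μ] g j := fun j => (hfm j).ae_eq_mk
  have hgL : ∀ j, eLpNorm (g j) ⊤ (μ.trim hm) < ⊤ := by
    intro j
    rw [eLpNorm_trim hm (hgm j), ← eLpNorm_congr_ae (hfg j)]
    exact (hfL j).2
  have h1 := h k n A c g (fun j => ⟨⟨(hgm j).aestronglyMeasurable, hgL j⟩,
    (hgm j).aestronglyMeasurable⟩)
  have h2 := ae_of_ae_trim hm h1
  have hrep : ∀ᵐ x ∂μ, ∀ (j : Fin n) (w : Fin d → ℤ), f j (pw T w x) = g j (pw T w x) := by
    simp only [ae_all_iff]
    exact fun j w => (mp_pw T hT w).quasiMeasurePreserving.ae (hfg j)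
  filter_upwards [h2, hrep] with x hx hr
  obtain ⟨L, hL⟩ := hx
  refine ⟨L, hL.congr fun M => ?_⟩
  simp only [hr]

lemma measurable_iSup_comap {ι X : Type} (g : ι → X → ℝ) (v : ι) :
    Measurable[⨆ v, MeasurableSpace.comap (g v) (borel ℝ)] (g v) := by
  rw [measurable_iff_comap_le, BorelSpace.measurable_eq (α := ℝ)]
  exact le_iSup (fun v => MeasurableSpace.comap (g v) (borel ℝ)) v

lemma comap_le_of_measurable {X : Type} {m : MeasurableSpace X} {g : X → ℝ}
    (h : Measurable[m] g) : MeasurableSpace.comap g (borel ℝ) ≤ m := by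
  have := h.comap_le
  rwa [BorelSpace.measurable_eq (α := ℝ)] at this

lemma gauss_trim {V X : Type} [AddCommGroup V] [Module ℝ V] (m : MeasurableSpace X)
    {mX : MeasurableSpace X} {μ : Measure X} [IsProbabilityMeasure μ] {d : ℕ}
    (g : GF V X μ) (act : MAct (Fin d → ℤ) X μ) (S : (Fin d → ℤ) → V →ₗ[ℝ] V)
    (hS : ∀ w v x, g.G (S w v) x = g.G v (act.S w x))
    (hSadd : ∀ w w' v, S (w + w') v = S w (S w' v))
    (hB : ∀ w u v, g.B (S w u) (S w v) = g.B u v)
    (hm : m = ⨆ v, MeasurableSpace.comap (g.G v) (borel ℝ)) (hmX : m ≤ mX)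
    (hact : ∀ w, Measurable[m, m] (act.S w)) :
    @LinR X m (μ.trim hmX) d act.S m := by
  intro κ _ _ J _ _ A F hFm hF1
  have hgm : ∀ v, Measurable[m] (g.G v) := by
    intro v
    rw [hm]
    exact measurable_iSup_comap g.G v
  have : @IsProbabilityMeasure X m (μ.trim hmX) := by
    refine @IsProbabilityMeasure.mk X m _ ?_
    rw [trim_measurableSet_eq hmX (@MeasurableSet.univ X m)]
    exact measure_univ
  exact @gauss_real V X _ _ m (μ.trim hmX) _ κ _ _ (Fin d → ℤ) _ J _ _ (g.trim m hmX hgm)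
    hm.le (trimAct m act hmX hact) S hS hSadd hB A F hFm hF1

lemma pw_single {X : Type} {d : ℕ} (T : Fin d → Equiv.Perm X) (i : Fin d) (z : ℤ) :
    pw T (Pi.single i z) = T i ^ z := by
  induction d with
  | zero => exact i.elim0
  | succ d ih =>
    unfold pw
    rw [List.ofFn_succ, List.prod_cons]
    refine Fin.cases ?_ (fun j => ?_) i
    · have e : (fun l : Fin d => T l.succ ^ (Pi.single (0 : Fin (d + 1)) z : Fin (d + 1) → ℤ)
          l.succ) = fun _ => 1 := by
        funext l
        rw [Pi.single_eq_of_ne (Fin.succ_ne_zero l), zpow_zero]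
      rw [e, Pi.single_eq_same]
      simp
    · have e : (fun l : Fin d => T l.succ ^ (Pi.single j.succ z : Fin (d + 1) → ℤ)
          l.succ) = fun l => T l.succ ^ (Pi.single j z : Fin d → ℤ) l := by
        funext l
        congr 1
        by_cases h : l = j
        · subst h
          rw [Pi.single_eq_same, Pi.single_eq_same]
        · rw [Pi.single_eq_of_ne h, Pi.single_eq_of_ne fun h' => h (Fin.succ_injective _ h')]
      rw [e, Pi.single_eq_of_ne (Fin.succ_ne_zero j).symm, zpow_zero, one_mul]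
      exact ih (fun l => T l.succ) j

/-- Gaussian factors -/
theorem gauss_linC {X : Type} {mX : MeasurableSpace X} {μ : Measure X} [IsProbabilityMeasure μ]
    {d : ℕ} (T : Fin d → Equiv.Perm X)
    (hT : ∀ i, Measurable (T i) ∧ Measurable (T i).symm ∧ MeasurePreserving (T i) μ μ)
    (hcomm : ∀ i i', T i * T i' = T i' * T i) {I : Type} (ξ : I → X → ℝ)
    (hξm : ∀ i, Measurable (ξ i))
    (hξ : IsGaussianProcess (fun (p : I × (Fin d → ℤ)) x => ξ p.1 (pw T p.2 x)) μ) :
    LinC μ T (⨆ p : I × (Fin d → ℤ),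
      MeasurableSpace.comap (fun x => ξ p.1 (pw T p.2 x)) (borel ℝ)) := by
  set ζ : I × (Fin d → ℤ) → X → ℝ := fun p x => ξ p.1 (pw T p.2 x) with hζ
  have hζm : ∀ p, Measurable (ζ p) := fun p => (hξm _).comp (mp_pw T hT _).measurable
  set act : MAct (Fin d → ℤ) X μ := permAct T hT hcomm with hactdef
  set g : GF ((I × (Fin d → ℤ)) →₀ ℝ) X μ := fam hζm hξ with hg
  set S : (Fin d → ℤ) → ((I × (Fin d → ℤ)) →₀ ℝ) →ₗ[ℝ] ((I × (Fin d → ℤ)) →₀ ℝ) :=
    fun w => Finsupp.lmapDomain ℝ ℝ (fun p => (p.1, p.2 + w)) with hSdef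
  have hζS : ∀ (p : I × (Fin d → ℤ)) w x, ζ (p.1, p.2 + w) x = ζ p (act.S w x) := by
    intro p w x
    simp only [hζ, hactdef, permAct]
    rw [pw_add T hcomm]
    rfl
  have hlcS : ∀ w v x, lc ζ (S w v) x = lc ζ v (act.S w x) := by
    intro w v x
    induction v using Finsupp.induction_linear with
    | zero => simp [lc]
    | add u v hu hv => rw [map_add, lc_add, lc_add, hu, hv]
    | single p c =>
      have e : (Finsupp.single p c : (I × (Fin d → ℤ)) →₀ ℝ) = c • Finsupp.single p 1 := by
        rw [Finsupp.smul_single, smul_eq_mul, mul_one]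
      have e2 : S w (Finsupp.single p 1) = Finsupp.single (p.1, p.2 + w) 1 := by
        simp only [hSdef, Finsupp.lmapDomain_apply, Finsupp.mapDomain_single]
      rw [e, map_smul, lc_smul, lc_smul, e2, lc_single, lc_single, hζS]
  have hS : ∀ w v x, g.G (S w v) x = g.G v (act.S w x) := by
    intro w v x
    show lc ζ (S w v) x - ∫ z, lc ζ (S w v) z ∂μ = lc ζ v (act.S w x) - ∫ z, lc ζ v z ∂μ
    rw [hlcS]
    simp only [hlcS]
    rw [act.integral_comp w (measurable_lc hζm v)]
  have hSadd : ∀ w w' v, S (w + w') v = S w (S w' v) := by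
    intro w w' v
    simp only [hSdef, Finsupp.lmapDomain_apply]
    rw [← Finsupp.mapDomain_comp]
    congr 1
    funext p
    simp only [Function.comp]
    rw [add_assoc, add_comm w' w]
  have hB : ∀ w u v, g.B (S w u) (S w v) = g.B u v := by
    intro w u v
    show ∫ x, g.G (S w u) x * g.G (S w v) x ∂μ = ∫ x, g.G u x * g.G v x ∂μ
    simp only [hS]
    exact act.integral_comp w (f := fun x => g.G u x * g.G v x) ((g.meas u).mul (g.meas v))
  -- the generated σ-algebra
  have hmX : (⨆ v, MeasurableSpace.comap (g.G v) (borel ℝ)) ≤ mX :=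
    iSup_le fun v => comap_le_of_measurable (g.meas v)
  have hact : ∀ w, Measurable[⨆ v, MeasurableSpace.comap (g.G v) (borel ℝ),
      ⨆ v, MeasurableSpace.comap (g.G v) (borel ℝ)] (act.S w) := by
    intro w
    rw [measurable_iff_comap_le, MeasurableSpace.comap_iSup]
    refine iSup_le fun v => ?_
    rw [MeasurableSpace.comap_comp]
    have e : g.G v ∘ act.S w = g.G (S w v) := by
      funext x
      exact (hS w v x).symm
    rw [e]
    exact le_iSup (fun v => MeasurableSpace.comap (g.G v) (borel ℝ)) (S w v)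
  have hle : (⨆ p : I × (Fin d → ℤ), MeasurableSpace.comap (ζ p) (borel ℝ)) ≤
      ⨆ v, MeasurableSpace.comap (g.G v) (borel ℝ) := by
    refine iSup_le fun p => ?_
    have e : ζ p = fun x => g.G (Finsupp.single p 1) x + ∫ z, ζ p z ∂μ := by
      funext x
      show ζ p x = (lc ζ (Finsupp.single p 1) x - ∫ z, lc ζ (Finsupp.single p 1) z ∂μ) + _
      simp only [lc_single]
      ring
    refine comap_le_of_measurable ?_
    rw [e]
    exact (measurable_iSup_comap g.G _).add_const _
  -- convergence for the generated σ-algebra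
  have hR := gauss_trim _ g act S hS hSadd hB rfl hmX hact
  have hprob : @IsProbabilityMeasure X _ (μ.trim hmX) := by
    refine @IsProbabilityMeasure.mk X _ _ ?_
    rw [trim_measurableSet_eq hmX (@MeasurableSet.univ X _)]
    exact measure_univ
  have hT' : ∀ i, Measurable[⨆ v, MeasurableSpace.comap (g.G v) (borel ℝ),
      ⨆ v, MeasurableSpace.comap (g.G v) (borel ℝ)] (T i) ∧
      Measurable[⨆ v, MeasurableSpace.comap (g.G v) (borel ℝ),
      ⨆ v, MeasurableSpace.comap (g.G v) (borel ℝ)] (T i).symm := by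
    intro i
    have h1 := hact (Pi.single i 1)
    have h2 := hact (Pi.single i (-1))
    simp only [hactdef, permAct, pw_single, zpow_one, zpow_neg] at h1 h2
    exact ⟨h1, h2⟩
  have hC := @linC_of_linR X _ (μ.trim hmX) hprob d T (fun i => ⟨(hT' i).1, (hT' i).2,
    mp_trim _ hmX (hT i).2.2 (hT' i).1⟩) hcomm hR
  have hC2 := linC_of_trim _ T hT hmX hC
  intro k n A c f hf
  exact hC2 k n A c f fun j => ⟨(hf j).1, (hf j).2.mono hle⟩

lemma sm_limUnder {X : Type} {m : MeasurableSpace X} {ψ : ℕ → X → ℂ}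
    (h : ∀ n, StronglyMeasurable[m] (ψ n)) :
    StronglyMeasurable[m] fun x => limUnder atTop fun n => ψ n x :=
  StronglyMeasurable.limUnder h

/-- functions measurable for a σ-algebra contained in another one modulo null sets -/
lemma aesm_of_mod {X : Type} {m 𝓖 : MeasurableSpace X} {mX : MeasurableSpace X} {μ : Measure X}
    (h : ∀ s, MeasurableSet[m] s → ∃ t, MeasurableSet[𝓖] t ∧ s =ᵐ[μ] t) {f : X → ℂ}
    (hf : AEStronglyMeasurable[m] f μ) : AEStronglyMeasurable[𝓖] f μ := by
  obtain ⟨g, hg, hfg⟩ := hf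
  choose! t ht hst using h
  set φ : ℕ → @SimpleFunc X m ℂ := hg.approx with hφ
  have hφm : ∀ n y, MeasurableSet[m] (φ n ⁻¹' {y}) := fun n y =>
    @SimpleFunc.measurableSet_fiber X ℂ m (φ n) y
  set ψ : ℕ → X → ℂ := fun n x =>
    ∑ y ∈ (@SimpleFunc.range X ℂ m (φ n)), (t (φ n ⁻¹' {y})).indicator (fun _ => y) x with hψ
  have hψm : ∀ n, StronglyMeasurable[𝓖] (ψ n) := by
    intro n
    refine Finset.stronglyMeasurable_fun_sum _ fun y _ => ?_
    exact stronglyMeasurable_const.indicator (ht _ (hφm n y))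
  have hψφ : ∀ᵐ x ∂μ, ∀ n, ψ n x = φ n x := by
    rw [ae_all_iff]
    intro n
    have h1 : ∀ᵐ x ∂μ, ∀ y ∈ (@SimpleFunc.range X ℂ m (φ n)),
        (x ∈ t (φ n ⁻¹' {y}) ↔ x ∈ φ n ⁻¹' {y}) := by
      rw [Filter.eventually_all_finset]
      intro y _
      filter_upwards [hst _ (hφm n y)] with x hx
      exact ⟨fun h => hx.symm.le h, fun h => hx.le h⟩
    filter_upwards [h1] with x hx
    simp only [hψ]
    have e : ∀ y ∈ (@SimpleFunc.range X ℂ m (φ n)),
        (t (φ n ⁻¹' {y})).indicator (fun _ => y) x = if φ n x = y then y else 0 := by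
      intro y hy
      by_cases hxy : φ n x = y
      · rw [if_pos hxy, Set.indicator_of_mem ((hx y hy).2 hxy)]
      · rw [if_neg hxy, Set.indicator_of_notMem fun h' => hxy ((hx y hy).1 h')]
    rw [Finset.sum_congr rfl e, Finset.sum_ite_eq, if_pos]
    exact @SimpleFunc.mem_range_self X ℂ m (φ n) x
  refine ⟨fun x => limUnder atTop fun n => ψ n x, sm_limUnder hψm, ?_⟩
  filter_upwards [hfg, hψφ] with x hx hx2
  rw [hx]
  symm
  refine Tendsto.limUnder_eq ?_
  simp only [hx2]
  exact hg.tendsto_approx x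

/-- actions whose zero-entropy sets are measurable for a Gaussian factor -/
theorem gauss_pinsker {X : Type} (𝓖 : MeasurableSpace X) {mX : MeasurableSpace X} {μ : Measure X}
    [IsProbabilityMeasure μ] {d : ℕ} (T : Fin d → Equiv.Perm X)
    (hT : ∀ i, Measurable (T i) ∧ Measurable (T i).symm ∧ MeasurePreserving (T i) μ μ)
    (hcomm : ∀ i i', T i * T i' = T i' * T i) (h𝓖 : LinC μ T 𝓖)
    (s : Set (Set X)) (hs : pinskerW μ (fun e x => pw T e x) = MeasurableSpace.generateFrom s)
    (h : ∀ A ∈ s, ∃ B, MeasurableSet[𝓖] B ∧ A =ᵐ[μ] B) : LinC μ T mX := by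
  rw [pinsker_reduction T hT hcomm]
  have h1 : pinskerW μ (fun e x => pw T e x) ≤ eventuallyMeasurableSpace 𝓖 (ae μ) := by
    rw [hs]
    exact MeasurableSpace.generateFrom_le h
  intro k n A c f hf
  exact h𝓖 k n A c f fun j => ⟨(hf j).1, aesm_of_mod (fun s hs => h1 s hs) (hf j).2⟩

end Pool.Agent.Lib.Pf720gs
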