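import Pool.Agent.Lib.Pf720gs.GF

/-!
# Cosines and sines of a linear family are total
-/

set_option autoImplicit false
set_option linter.unusedSectionVars false

open MeasureTheory Filter Topology ProbabilityTheory
open scoped ENNReal

namespace Pool.Agent.Lib.Pf720gs

variable {V X : Type} [AddCommGroup V] [Module ℝ V] {mX : MeasurableSpace X} {μ : Measure X}
  [IsProbabilityMeasure μ]

lemma eq_zero_of_orth (g : GF V X μ)
    (hgen : mX ≤ ⨆ v, MeasurableSpace.comap (g.G v) (borel ℝ)) {φ : X → ℝ}
    (hφ : Integrable φ μ) (hc : ∀ v, ∫ x, φ x * Real.cos (g.G v x) ∂μ = 0)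
    (hs : ∀ v, ∫ x, φ x * Real.sin (g.G v x) ∂μ = 0) : φ =ᵐ[μ] 0 := by
  -- complex form
  have hcx : ∀ v, ∫ x, (φ x : ℂ) * Complex.exp ((g.G v x : ℂ) * Complex.I) ∂μ = 0 := by
    intro v
    have hm : Measurable fun x => Complex.exp ((g.G v x : ℂ) * Complex.I) := by
      have := g.meas v
      fun_prop
    have hint : Integrable (fun x => (φ x : ℂ) * Complex.exp ((g.G v x : ℂ) * Complex.I)) μ := by
      refine (hφ.ofReal (𝕜 := ℂ)).mul_bdd (c := 1) hm.aestronglyMeasurable ?_
      exact Eventually.of_forall fun x => by rw [Complex.norm_exp_ofReal_mul_I]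
    apply Complex.ext
    · rw [← Complex.reCLM_apply, ← ContinuousLinearMap.integral_comp_comm _ hint]
      simp only [Complex.reCLM_apply, Complex.re_ofReal_mul, Complex.exp_ofReal_mul_I_re,
        Complex.zero_re]
      exact hc v
    · rw [← Complex.imCLM_apply, ← ContinuousLinearMap.integral_comp_comm _ hint]
      simp only [Complex.imCLM_apply, Complex.im_ofReal_mul, Complex.exp_ofReal_mul_I_im,
        Complex.zero_im]
      exact hs v
  set P₁ : Measure X := μ.withDensity fun x => ENNReal.ofReal (φ x) with hP₁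
  set P₂ : Measure X := μ.withDensity fun x => ENNReal.ofReal (-φ x) with hP₂
  have hf1 : IsFiniteMeasure P₁ := isFiniteMeasure_withDensity_ofReal hφ.2
  have hf2 : IsFiniteMeasure P₂ := isFiniteMeasure_withDensity_ofReal hφ.neg.2
  have hlaw : P₁.map (fun x v => g.G v x) = P₂.map (fun x v => g.G v x) := by
    refine law_eq g.meas g.meas fun s t => ?_
    have e : ∀ x, ∑ v ∈ s, t v * g.G v x = g.G (∑ v ∈ s, t v • v) x := by
      intro x
      rw [g.sum]
      simp only [g.smul]
    simp only [e]
    set w : V := ∑ v ∈ s, t v • v with hw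
    have hm : Measurable fun x => Complex.exp ((g.G w x : ℂ) * Complex.I) := by
      have := g.meas w
      fun_prop
    have hb : ∀ x, ‖Complex.exp ((g.G w x : ℂ) * Complex.I)‖ ≤ 1 := fun x => by
      rw [Complex.norm_exp_ofReal_mul_I]
    have hpos : Integrable (fun x => max (φ x) 0) μ := hφ.pos_part
    have hneg : Integrable (fun x => max (-φ x) 0) μ := hφ.neg_part
    have i1 : ∫ x, Complex.exp ((g.G w x : ℂ) * Complex.I) ∂P₁ =
        ∫ x, ((max (φ x) 0 : ℝ) : ℂ) * Complex.exp ((g.G w x : ℂ) * Complex.I) ∂μ := by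
      rw [hP₁, integral_withDensity_eq_integral_toReal_smul₀ hφ.1.aemeasurable.ennreal_ofReal
        (Eventually.of_forall fun x => ENNReal.ofReal_lt_top)]
      refine integral_congr_ae (Eventually.of_forall fun x => ?_)
      simp only
      rw [ENNReal.toReal_ofReal', Complex.real_smul]
    have i2 : ∫ x, Complex.exp ((g.G w x : ℂ) * Complex.I) ∂P₂ =
        ∫ x, ((max (-φ x) 0 : ℝ) : ℂ) * Complex.exp ((g.G w x : ℂ) * Complex.I) ∂μ := by
      have hn : AEMeasurable (fun x => ENNReal.ofReal (-φ x)) μ :=
        hφ.1.aemeasurable.neg.ennreal_ofReal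
      rw [hP₂, integral_withDensity_eq_integral_toReal_smul₀ hn
        (Eventually.of_forall fun x => ENNReal.ofReal_lt_top)]
      refine integral_congr_ae (Eventually.of_forall fun x => ?_)
      simp only
      rw [ENNReal.toReal_ofReal', Complex.real_smul]
    rw [i1, i2, ← sub_eq_zero, ← integral_sub]
    · rw [← hcx w]
      refine integral_congr_ae (Eventually.of_forall fun x => ?_)
      simp only
      rw [← sub_mul, ← Complex.ofReal_sub]
      congr 2
      rcases le_total 0 (φ x) with h | h
      · rw [max_eq_left h, max_eq_right (by linarith), sub_zero]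
      · rw [max_eq_right h, max_eq_left (by linarith), zero_sub, neg_neg]
    · exact (hpos.ofReal (𝕜 := ℂ)).mul_bdd (c := 1) hm.aestronglyMeasurable
        (Eventually.of_forall hb)
    · exact (hneg.ofReal (𝕜 := ℂ)).mul_bdd (c := 1) hm.aestronglyMeasurable
        (Eventually.of_forall hb)
  have hmeas : Measurable fun x v => g.G v x := measurable_pi_iff.2 g.meas
  have hset : ∀ D : Set X, MeasurableSet D → P₁ D = P₂ D := by
    intro D hD
    have hD' := hgen D hD
    have e : (⨆ v, MeasurableSpace.comap (g.G v) (borel ℝ)) =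
        MeasurableSpace.comap (fun x v => g.G v x) MeasurableSpace.pi := by
      unfold MeasurableSpace.pi
      rw [MeasurableSpace.comap_iSup]
      refine iSup_congr fun v => ?_
      rw [MeasurableSpace.comap_comp]
      rw [← BorelSpace.measurable_eq (α := ℝ)]
      rfl
    rw [e] at hD'
    obtain ⟨E, hE, rfl⟩ := hD'
    rw [← Measure.map_apply hmeas hE, hlaw, Measure.map_apply hmeas hE]
  refine Integrable.ae_eq_zero_of_forall_setIntegral_eq_zero hφ fun D hD _ => ?_
  have h1 := hset D hD
  rw [hP₁, hP₂, withDensity_apply _ hD, withDensity_apply _ hD] at h1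
  rw [integral_eq_lintegral_pos_part_sub_lintegral_neg_part hφ.integrableOn, h1, sub_self]

end Pool.Agent.Lib.Pf720gs
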