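import Pool.Agent.Lib.Pf720gs.GF
import Pool.Agent.Lib.Pf720ae.Adm

/-!
# Averages of exponentials of linear Gaussian families along several commuting directions
-/

set_option autoImplicit false
set_option linter.unusedSectionVars false

open MeasureTheory Filter Topology ProbabilityTheory
open scoped ENNReal

namespace Pool.Agent.Lib.Pf720gs

open Pool.Agent.Lib.Pf720ae

variable {V X : Type} [AddCommGroup V] [Module ℝ V] {mX : MeasurableSpace X} {μ : Measure X}
  [IsProbabilityMeasure μ] {κ : Type} [Fintype κ] [DecidableEq κ]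

/-- convergence of the averages of the cosines and of the sines -/
def CS (k : (κ → ℕ) → ℝ) : Prop :=
  Cvg (fun m => Real.cos (k m)) ∧ Cvg (fun m => Real.sin (k m))

lemma measurableSet_CS : MeasurableSet {k : (κ → ℕ) → ℝ | CS k} := by
  have h1 : ∀ M : κ → ℕ, Measurable fun k : (κ → ℕ) → ℝ => avg M fun m => Real.cos (k m) := by
    intro M
    unfold avg
    refine Measurable.const_mul (Finset.measurable_fun_sum _ fun m _ => ?_) _
    exact Real.measurable_cos.comp (measurable_pi_apply m)
  have h2 : ∀ M : κ → ℕ, Measurable fun k : (κ → ℕ) → ℝ => avg M fun m => Real.sin (k m) := by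
    intro M
    unfold avg
    refine Measurable.const_mul (Finset.measurable_fun_sum _ fun m _ => ?_) _
    exact Real.measurable_sin.comp (measurable_pi_apply m)
  exact (measurableSet_exists_tendsto h1).inter (measurableSet_exists_tendsto h2)

lemma abs_avg_cos_le (M : κ → ℕ) (k : (κ → ℕ) → ℝ) : |avg M fun m => Real.cos (k m)| ≤ 1 :=
  abs_avg_le_of_le zero_le_one fun _ => Real.abs_cos_le_one _

lemma abs_avg_sin_le (M : κ → ℕ) (k : (κ → ℕ) → ℝ) : |avg M fun m => Real.sin (k m)| ≤ 1 :=
  abs_avg_le_of_le zero_le_one fun _ => Real.abs_sin_le_one _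

/-- integrating out independent additive terms -/
lemma CS_of_ae_prod {Ω : Type} [MeasurableSpace Ω] {P : Measure Ω} [IsProbabilityMeasure P]
    {k : (κ → ℕ) → ℝ} {r : (κ → ℕ) → Ω → ℝ} (hr : ∀ m, Measurable (r m)) {c : ℝ} (hc : c ≠ 0)
    (hcos : ∀ m, ∫ ω, Real.cos (k m + r m ω) ∂P = c * Real.cos (k m))
    (hsin : ∀ m, ∫ ω, Real.sin (k m + r m ω) ∂P = c * Real.sin (k m))
    (h : ∀ᵐ ω ∂P, CS fun m => k m + r m ω) : CS k := by
  have hint : ∀ (M : κ → ℕ) (T : ℝ → ℝ), Measurable T → (∀ t, |T t| ≤ 1) →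
      ∫ ω, (avg M fun m => T (k m + r m ω)) ∂P = avg M fun m => ∫ ω, T (k m + r m ω) ∂P := by
    intro M T hT hT1
    unfold avg
    rw [integral_const_mul, integral_finsetSum]
    intro m _
    exact Integrable.of_bound (hT.comp (measurable_const.add (hr m))).aestronglyMeasurable 1
      (Eventually.of_forall fun ω => hT1 _)
  have hmeas : ∀ (M : κ → ℕ) (T : ℝ → ℝ), Measurable T →
      Measurable fun ω => avg M fun m => T (k m + r m ω) := by
    intro M T hT
    unfold avg
    exact Measurable.const_mul (Finset.measurable_fun_sum _ fun m _ =>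
      hT.comp (measurable_const.add (hr m))) _
  have key : ∀ (T : ℝ → ℝ), Measurable T → (∀ t, |T t| ≤ 1) →
      (∀ᵐ ω ∂P, Cvg fun m => T (k m + r m ω)) →
      (∀ m, ∫ ω, T (k m + r m ω) ∂P = c * T (k m)) → Cvg fun m => T (k m) := by
    intro T hT hT1 hae hc'
    obtain ⟨L, hL⟩ : ∃ L : Ω → ℝ, ∀ᵐ ω ∂P,
        Tendsto (fun M : κ → ℕ => avg M fun m => T (k m + r m ω)) atTop (𝓝 (L ω)) := by
      classical
      refine ⟨fun ω => if hω : Cvg (fun m => T (k m + r m ω)) then hω.choose else 0, ?_⟩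
      filter_upwards [hae] with ω hω
      rw [dif_pos hω]
      exact hω.choose_spec
    have h1 := tendsto_integral_filter_of_dominated_convergence (μ := P) (fun _ => (1 : ℝ))
      (Eventually.of_forall fun M : κ → ℕ => (hmeas M T hT).aestronglyMeasurable)
      (Eventually.of_forall fun M : κ → ℕ => Eventually.of_forall fun ω => by
        rw [Real.norm_eq_abs]
        exact abs_avg_le_of_le zero_le_one fun _ => hT1 _) (integrable_const _) hL
    simp only [hint _ T hT hT1, hc'] at h1
    have h2 : Cvg fun m => c * T (k m) := ⟨_, h1⟩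
    refine (h2.smul c⁻¹).congr fun m => ?_
    rw [← mul_assoc, inv_mul_cancel₀ hc, one_mul]
  refine ⟨key Real.cos Real.measurable_cos Real.abs_cos_le_one ?_ hcos,
    key Real.sin Real.measurable_sin Real.abs_sin_le_one ?_ hsin⟩
  · filter_upwards [h] with ω hω using hω.1
  · filter_upwards [h] with ω hω using hω.2

variable {Γ : Type} [AddCommGroup Γ] {J : Type} [Fintype J] [DecidableEq J]

/-- the action on several copies -/
def copyAct (act : MAct Γ X μ) {C : Type} [Fintype C] (D : C → (κ → ℤ) →+ Γ) :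
    MAct (κ → ℤ) (C → X) (Measure.pi fun _ : C => μ) where
  S v ω c := act.S (D c v) (ω c)
  zero ω := by
    funext c
    rw [map_zero, act.zero]
  add a b ω := by
    funext c
    rw [map_add, act.add]
  mp v := measurePreserving_pi _ _ fun c => act.mp (D c v)

/-- The main step. -/
theorem gauss_exp (g : GF V X μ) (act : MAct Γ X μ) (S : Γ → V →ₗ[ℝ] V)
    (hS : ∀ w v x, g.G (S w v) x = g.G v (act.S w x))
    (hSadd : ∀ w w' v, S (w + w') v = S w (S w' v))
    (hB : ∀ w u v, g.B (S w u) (S w v) = g.B u v)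
    (A : J → (κ → ℤ) →+ Γ) (h : J → V) :
    ∀ᵐ x ∂μ, CS fun m : κ → ℕ => ∑ j, g.G (h j) (act.S (A j (toZ m)) x) := by
  have hQS : ∀ w v, g.Q (S w v) = g.Q v := fun w v => hB w v v
  -- the decoupled system
  set D : J ⊕ (J × J) → (κ → ℤ) →+ Γ := Sum.elim A (fun p => A p.2 - A p.1) with hD
  set cst : ℝ := Real.sqrt (Fintype.card J) with hcst
  set σ : ℝ := Real.sqrt (1 / 2) with hσ
  have hcst2 : cst ^ 2 = (Fintype.card J : ℝ) := Real.sq_sqrt (by positivity)
  have hσ2 : σ ^ 2 = 1 / 2 := Real.sq_sqrt (by norm_num)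
  set a : (κ → ℕ) → J ⊕ (J × J) → V := fun m => Sum.elim
    (fun j => cst • S (A j (toZ m)) (h j))
    (fun p => σ • (S (A p.2 (toZ m) - A p.1 (toZ m)) (h p.2) + h p.1)) with ha
  have hdec : ∀ᵐ ω ∂(Measure.pi fun _ : J ⊕ (J × J) => μ),
      (fun m => g.GC (a m) ω) ∈ {k : (κ → ℕ) → ℝ | CS k} := by
    set base : J ⊕ (J × J) → V := Sum.elim (fun j => cst • h j) (fun p => σ • h p.2) with hbase
    set ex : J ⊕ (J × J) → V := Sum.elim (fun _ => 0) (fun p => σ • h p.1) with hex
    have e1 : ∀ (m : κ → ℕ) ω, g.GC (a m) ω =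
        g.GC base ((copyAct act D).S (toZ m) ω) + g.GC ex ω := by
      intro m ω
      unfold GF.GC
      rw [← Finset.sum_add_distrib]
      refine Finset.sum_congr rfl fun c _ => ?_
      rcases c with j | p
      · simp only [ha, hbase, hex, Sum.elim_inl, copyAct, hD]
        rw [g.smul, hS, g.smul, g.zero, add_zero]
      · simp only [ha, hbase, hex, Sum.elim_inr, copyAct, hD]
        rw [g.smul, g.add, hS, g.smul, g.smul, mul_add]
        rfl
    have h1 := dz (κ := κ) (copyAct act D) (F := fun ω => Real.cos (g.GC base ω))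
      (Real.measurable_cos.comp (g.measurable_GC base)) (fun ω => Real.abs_cos_le_one _)
    have h2 := dz (κ := κ) (copyAct act D) (F := fun ω => Real.sin (g.GC base ω))
      (Real.measurable_sin.comp (g.measurable_GC base)) (fun ω => Real.abs_sin_le_one _)
    filter_upwards [h1, h2] with ω hc hs
    constructor
    · refine ((hc.smul (Real.cos (g.GC ex ω))).add (hs.smul (-Real.sin (g.GC ex ω)))).congr
        fun m => ?_
      show _ = Real.cos (g.GC (a m) ω)
      rw [e1, Real.cos_add]
      ring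
    · refine ((hs.smul (Real.cos (g.GC ex ω))).add (hc.smul (Real.sin (g.GC ex ω)))).congr
        fun m => ?_
      show _ = Real.sin (g.GC (a m) ω)
      rw [e1, Real.sin_add]
      ring
  -- the coupled system
  set v : (κ → ℕ) → V := fun m => ∑ j, S (A j (toZ m)) (h j) with hv
  set b : (κ → ℕ) → (J × J) ⊕ (J × J) → V := fun m => Sum.elim
    (fun p => σ • (S (A p.1 (toZ m)) (h p.1) - S (A p.2 (toZ m)) (h p.2)))
    (fun p => σ • (S (A p.2 (toZ m) - A p.1 (toZ m)) (h p.2) + h p.1)) with hb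
  have hlaw : (Measure.pi fun _ : J ⊕ (J × J) => μ).map (fun ω m => g.GC (a m) ω) =
      (μ.prod (Measure.pi fun _ : (J × J) ⊕ (J × J) => μ)).map
        (fun p m => g.G (v m) p.1 + g.GC (b m) p.2) := by
    refine law_eq (fun m => g.measurable_GC _)
      (fun m => ((g.meas _).comp measurable_fst).add ((g.measurable_GC _).comp measurable_snd)) ?_
    intro s t
    have e1 : ∀ ω, ∑ m ∈ s, t m * g.GC (a m) ω = g.GC (fun c => ∑ m ∈ s, t m • a m c) ω :=
      fun ω => g.GC_sum s t a ω
    have e2 : ∀ p : X × ((J × J) ⊕ (J × J) → X),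
        ∑ m ∈ s, t m * (g.G (v m) p.1 + g.GC (b m) p.2) =
          g.G (∑ m ∈ s, t m • v m) p.1 + g.GC (fun c => ∑ m ∈ s, t m • b m c) p.2 := by
      intro p
      rw [← g.GC_sum, g.sum]
      simp only [g.smul, mul_add, Finset.sum_add_distrib]
    simp only [e1, e2]
    rw [g.char_GC, g.char_prod]
    congr 3
    -- the quadratic forms agree
    set U : J → V := fun j => ∑ m ∈ s, t m • S (A j (toZ m)) (h j) with hU
    have f1 : ∀ j, (∑ m ∈ s, t m • a m (Sum.inl j)) = cst • U j := by
      intro j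
      simp only [ha, Sum.elim_inl, hU, Finset.smul_sum]
      exact Finset.sum_congr rfl fun m _ => smul_comm _ _ _
    have f2 : ∀ p : J × J, (∑ m ∈ s, t m • b m (Sum.inl p)) = σ • (U p.1 - U p.2) := by
      intro p
      simp only [hb, Sum.elim_inl, hU, ← Finset.sum_sub_distrib, Finset.smul_sum, ← smul_sub]
      exact Finset.sum_congr rfl fun m _ => smul_comm _ _ _
    have f3 : (∑ m ∈ s, t m • v m) = ∑ j, U j := by
      simp only [hv, hU, Finset.smul_sum]
      rw [Finset.sum_comm]
    have f4 : ∀ p : J × J, (∑ m ∈ s, t m • a m (Sum.inr p)) = ∑ m ∈ s, t m • b m (Sum.inr p) := by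
      intro p
      rfl
    rw [Fintype.sum_sum_type, Fintype.sum_sum_type, f3]
    simp only [f1, f2, f4, g.Q_smul, hcst2, hσ2]
    rw [Fintype.sum_prod_type (f := fun p : J × J => 1 / 2 * g.Q (U p.1 - U p.2))]
    have h3 := g.lagrange U
    simp only [← Finset.mul_sum] at h3 ⊢
    rw [← add_assoc, h3]
  have hcoup := ae_transfer (fun m => g.measurable_GC _)
    (fun m => ((g.meas _).comp measurable_fst).add ((g.measurable_GC _).comp measurable_snd))
    hlaw measurableSet_CS hdec
  -- integrate out the copies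
  have hfub : ∀ᵐ x ∂μ, ∀ᵐ ω ∂(Measure.pi fun _ : (J × J) ⊕ (J × J) => μ),
      CS fun m => g.G (v m) x + g.GC (b m) ω := Measure.ae_ae_of_ae_prod hcoup
  have hconst : ∀ m, ∑ c, g.Q (b m c) = ∑ p : J × J, (g.Q (h p.1) + g.Q (h p.2)) := by
    intro m
    rw [Fintype.sum_sum_type, ← Finset.sum_add_distrib]
    refine Finset.sum_congr rfl fun p _ => ?_
    simp only [hb, Sum.elim_inl, Sum.elim_inr]
    rw [g.Q_smul, g.Q_smul, hσ2, ← hQS (A p.1 (toZ m))
      (S (A p.2 (toZ m) - A p.1 (toZ m)) (h p.2) + h p.1), map_add, ← hSadd,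
      add_sub_cancel, g.Q_add, g.Q_sub, hQS, hQS,
      g.Bsymm (S (A p.2 (toZ m)) (h p.2)) (S (A p.1 (toZ m)) (h p.1))]
    ring
  filter_upwards [hfub] with x hx
  have h1 := CS_of_ae_prod (P := Measure.pi fun _ : (J × J) ⊕ (J × J) => μ)
    (k := fun m => g.G (v m) x) (r := fun m ω => g.GC (b m) ω) (fun m => g.measurable_GC _)
    (c := Real.exp (-(∑ p : J × J, (g.Q (h p.1) + g.Q (h p.2))) / 2)) (Real.exp_pos _).ne'
    (fun m => by rw [← hconst m]; exact (g.integral_cos_sin (b m) _).1)
    (fun m => by rw [← hconst m]; exact (g.integral_cos_sin (b m) _).2) hx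
  have h2 : (fun m : κ → ℕ => g.G (v m) x) =
      fun m : κ → ℕ => ∑ j, g.G (h j) (act.S (A j (toZ m)) x) := by
    funext m
    simp only [hv, g.sum, hS]
  rwa [h2] at h1

end Pool.Agent.Lib.Pf720gs
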