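import Pool.Agent.Lib.Pf720gs.Law

/-!
# Linear Gaussian families and independent copies
-/

set_option autoImplicit false
set_option linter.unusedSectionVars false

open MeasureTheory Filter Topology ProbabilityTheory
open scoped ENNReal

namespace Pool.Agent.Lib.Pf720gs

/-- a centred Gaussian family indexed linearly by a real vector space -/
structure GF (V X : Type) [AddCommGroup V] [Module ℝ V] {mX : MeasurableSpace X}
    (μ : Measure X) where
  /-- the variables -/
  G : V → X → ℝ
  meas : ∀ v, Measurable (G v)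
  add : ∀ u v x, G (u + v) x = G u x + G v x
  smul : ∀ (c : ℝ) v x, G (c • v) x = c * G v x
  /-- the covariance -/
  B : V →ₗ[ℝ] V →ₗ[ℝ] ℝ
  Bsymm : ∀ u v, B u v = B v u
  char : ∀ v, ∫ x, Complex.exp ((G v x : ℂ) * Complex.I) ∂μ =
    ((Real.exp (-(B v v) / 2) : ℝ) : ℂ)

variable {V X : Type} [AddCommGroup V] [Module ℝ V] {mX : MeasurableSpace X} {μ : Measure X}
  [IsProbabilityMeasure μ]

namespace GF

variable (g : GF V X μ)

lemma zero (x : X) : g.G 0 x = 0 := by
  have := g.smul 0 0 x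
  simpa using this

lemma sum {ι : Type*} (s : Finset ι) (v : ι → V) (x : X) :
    g.G (∑ i ∈ s, v i) x = ∑ i ∈ s, g.G (v i) x := by
  classical
  induction s using Finset.induction_on with
  | empty => simpa using g.zero x
  | insert a s ha ih => rw [Finset.sum_insert ha, Finset.sum_insert ha, g.add, ih]

/-- the quadratic form -/
def Q (v : V) : ℝ := g.B v v

lemma Q_add (u v : V) : g.Q (u + v) = g.Q u + g.Q v + 2 * g.B u v := by
  unfold Q
  simp only [map_add, LinearMap.add_apply, g.Bsymm v u]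
  ring

lemma Q_sub (u v : V) : g.Q (u - v) = g.Q u + g.Q v - 2 * g.B u v := by
  unfold Q
  simp only [map_sub, LinearMap.sub_apply, g.Bsymm v u]
  ring

lemma Q_smul (c : ℝ) (v : V) : g.Q (c • v) = c ^ 2 * g.Q v := by
  unfold Q
  simp only [map_smul, LinearMap.smul_apply, smul_eq_mul]
  ring

lemma B_sum_sum {J : Type*} [Fintype J] (U : J → V) :
    g.B (∑ i, U i) (∑ j, U j) = ∑ i, ∑ j, g.B (U i) (U j) := by
  simp only [map_sum, LinearMap.sum_apply]
  rw [Finset.sum_comm]

/-- Lagrange identity -/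
lemma lagrange {J : Type*} [Fintype J] (U : J → V) :
    g.Q (∑ j, U j) + (1 / 2) * ∑ i, ∑ j, g.Q (U i - U j) =
      (Fintype.card J : ℝ) * ∑ j, g.Q (U j) := by
  have h1 : ∑ i, ∑ j, g.Q (U i - U j) =
      2 * ((Fintype.card J : ℝ) * ∑ j, g.Q (U j)) - 2 * ∑ i, ∑ j, g.B (U i) (U j) := by
    simp only [Q_sub, Finset.sum_sub_distrib, Finset.sum_add_distrib, Finset.sum_const,
      Finset.card_univ, nsmul_eq_mul, ← Finset.mul_sum]
    ring
  rw [h1]
  unfold Q
  rw [B_sum_sum]
  ring

/-- the variables of independent copies -/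
def GC {C : Type} [Fintype C] (a : C → V) (ω : C → X) : ℝ := ∑ c, g.G (a c) (ω c)

lemma measurable_GC {C : Type} [Fintype C] (a : C → V) : Measurable (g.GC a) :=
  Finset.measurable_fun_sum _ fun c _ => (g.meas _).comp (measurable_pi_apply c)

lemma GC_sum {C : Type} [Fintype C] {ι : Type} (s : Finset ι) (t : ι → ℝ) (a : ι → C → V)
    (ω : C → X) : ∑ m ∈ s, t m * g.GC (a m) ω = g.GC (fun c => ∑ m ∈ s, t m • a m c) ω := by
  unfold GC
  simp only [Finset.mul_sum, g.sum, g.smul]
  rw [Finset.sum_comm]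

lemma char_GC {C : Type} [Fintype C] (a : C → V) :
    ∫ ω, Complex.exp ((g.GC a ω : ℂ) * Complex.I) ∂(Measure.pi fun _ : C => μ) =
      ((Real.exp (-(∑ c, g.Q (a c)) / 2) : ℝ) : ℂ) := by
  have h1 : ∀ ω : C → X, Complex.exp ((g.GC a ω : ℂ) * Complex.I) =
      ∏ c, Complex.exp ((g.G (a c) (ω c) : ℂ) * Complex.I) := by
    intro ω
    rw [← Complex.exp_sum, ← Finset.sum_mul]
    unfold GC
    push_cast
    rfl
  simp only [h1]
  rw [integral_fintype_prod_eq_prod
    (fun c x => Complex.exp ((g.G (a c) x : ℂ) * Complex.I))]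
  simp only [g.char]
  rw [← Complex.ofReal_prod, ← Real.exp_sum]
  congr 2
  unfold Q
  rw [← Finset.sum_neg_distrib, Finset.sum_div]

/-- one distinguished copy and further copies -/
lemma char_prod {C : Type} [Fintype C] (v : V) (a : C → V) :
    ∫ p, Complex.exp (((g.G v p.1 + g.GC a p.2 : ℝ) : ℂ) * Complex.I)
      ∂(μ.prod (Measure.pi fun _ : C => μ)) =
      ((Real.exp (-(g.Q v + ∑ c, g.Q (a c)) / 2) : ℝ) : ℂ) := by
  have h1 : ∀ p : X × (C → X), Complex.exp (((g.G v p.1 + g.GC a p.2 : ℝ) : ℂ) * Complex.I) =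
      Complex.exp ((g.G v p.1 : ℂ) * Complex.I) * Complex.exp ((g.GC a p.2 : ℂ) * Complex.I) := by
    intro p
    rw [← Complex.exp_add, ← add_mul]
    push_cast
    rfl
  simp only [h1]
  rw [integral_prod_mul (fun x => Complex.exp ((g.G v x : ℂ) * Complex.I))
    (fun ω => Complex.exp ((g.GC a ω : ℂ) * Complex.I)), g.char, g.char_GC, ← Complex.ofReal_mul,
    ← Real.exp_add]
  congr 2
  unfold Q
  ring

/-- real and imaginary parts of the integral over the extra copies -/
lemma integral_cos_sin {C : Type} [Fintype C] (a : C → V) (θ : ℝ) :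
    (∫ ω, Real.cos (θ + g.GC a ω) ∂(Measure.pi fun _ : C => μ) =
      Real.exp (-(∑ c, g.Q (a c)) / 2) * Real.cos θ) ∧
    (∫ ω, Real.sin (θ + g.GC a ω) ∂(Measure.pi fun _ : C => μ) =
      Real.exp (-(∑ c, g.Q (a c)) / 2) * Real.sin θ) := by
  have hm : Measurable fun ω : C → X => Complex.exp (((θ + g.GC a ω : ℝ) : ℂ) * Complex.I) := by
    have := g.measurable_GC a
    fun_prop
  have hint : Integrable (fun ω : C → X => Complex.exp (((θ + g.GC a ω : ℝ) : ℂ) * Complex.I))
      (Measure.pi fun _ : C => μ) := by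
    refine Integrable.of_bound hm.aestronglyMeasurable 1 (Eventually.of_forall fun ω => ?_)
    rw [Complex.norm_exp_ofReal_mul_I]
  have h1 : ∫ ω, Complex.exp (((θ + g.GC a ω : ℝ) : ℂ) * Complex.I)
      ∂(Measure.pi fun _ : C => μ) = Complex.exp ((θ : ℂ) * Complex.I) *
        ((Real.exp (-(∑ c, g.Q (a c)) / 2) : ℝ) : ℂ) := by
    rw [← g.char_GC, ← integral_const_mul]
    refine integral_congr_ae (Eventually.of_forall fun ω => ?_)
    simp only
    rw [← Complex.exp_add]
    push_cast
    ring_nf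
  constructor
  · have h2 := congrArg Complex.re h1
    rw [← Complex.reCLM_apply, ← ContinuousLinearMap.integral_comp_comm _ hint] at h2
    simp only [Complex.reCLM_apply, Complex.exp_ofReal_mul_I_re, Complex.re_mul_ofReal] at h2
    rw [h2, mul_comm]
  · have h2 := congrArg Complex.im h1
    rw [← Complex.imCLM_apply, ← ContinuousLinearMap.integral_comp_comm _ hint] at h2
    simp only [Complex.imCLM_apply, Complex.exp_ofReal_mul_I_im, Complex.im_mul_ofReal] at h2
    rw [h2, mul_comm]

end GF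

end Pool.Agent.Lib.Pf720gs
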