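import Pool.Agent.Lib.Pf720gs.Dens
import Pool.Agent.Lib.Pf720gs.GExp

/-!
# Bounded functions of a Gaussian family
-/

set_option autoImplicit false
set_option linter.unusedSectionVars false

open Finset MeasureTheory Filter Topology ProbabilityTheory
open scoped ENNReal ComplexConjugate

namespace Pool.Agent.Lib.Pf720gs

open Pool.Agent.Lib.Pf720ae

variable {V X : Type} [AddCommGroup V] [Module ℝ V] {mX : MeasurableSpace X} {μ : Measure X}
  [IsProbabilityMeasure μ] {κ : Type} [Fintype κ] [DecidableEq κ]
  {Γ : Type} [AddCommGroup Γ] {J : Type} [Fintype J] [DecidableEq J]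

/-- cosine or sine -/
noncomputable def prt (g : GF V X μ) (b : Bool) (v : V) (x : X) : ℝ :=
  if b then Real.cos (g.G v x) else Real.sin (g.G v x)

lemma measurable_prt (g : GF V X μ) (b : Bool) (v : V) : Measurable (prt g b v) := by
  unfold prt
  cases b
  · simp only [Bool.false_eq_true, if_false]
    exact Real.measurable_sin.comp (g.meas v)
  · simp only [if_true]
    exact Real.measurable_cos.comp (g.meas v)

lemma abs_prt_le (g : GF V X μ) (b : Bool) (v : V) (x : X) : |prt g b v x| ≤ 1 := by
  unfold prt
  cases b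
  · simpa using Real.abs_sin_le_one _
  · simpa using Real.abs_cos_le_one _

/-- the exponential -/
noncomputable def ex (g : GF V X μ) (v : V) (x : X) : ℂ :=
  Complex.exp ((g.G v x : ℂ) * Complex.I)

lemma norm_ex (g : GF V X μ) (v : V) (x : X) : ‖ex g v x‖ = 1 := Complex.norm_exp_ofReal_mul_I _

lemma ex_re (g : GF V X μ) (v : V) (x : X) : (ex g v x).re = Real.cos (g.G v x) :=
  Complex.exp_ofReal_mul_I_re _

lemma ex_im (g : GF V X μ) (v : V) (x : X) : (ex g v x).im = Real.sin (g.G v x) :=
  Complex.exp_ofReal_mul_I_im _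

lemma G_neg (g : GF V X μ) (v : V) (x : X) : g.G (-v) x = -g.G v x := by
  have := g.smul (-1) v x
  simpa using this

lemma norm_prod_le_one {ι : Type*} (s : Finset ι) (f : ι → ℂ) (hf : ∀ i, ‖f i‖ ≤ 1) :
    ‖∏ i ∈ s, f i‖ ≤ 1 := by
  rw [norm_prod]
  exact Finset.prod_le_one (fun i _ => norm_nonneg _) fun i _ => hf i

/-- some of the functions are exponentials, the others are real and bounded -/
theorem mixed (g : GF V X μ) (hgen : mX ≤ ⨆ v, MeasurableSpace.comap (g.G v) (borel ℝ))
    (act : MAct Γ X μ) (S : Γ → V →ₗ[ℝ] V)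
    (hS : ∀ w v x, g.G (S w v) x = g.G v (act.S w x))
    (hSadd : ∀ w w' v, S (w + w') v = S w (S w' v))
    (hB : ∀ w u v, g.B (S w u) (S w v) = g.B u v)
    (A : J → (κ → ℤ) →+ Γ) (s : Finset J) (f : J → X → ℂ)
    (hfs : ∀ j ∈ s, ∃ F : X → ℝ, Measurable F ∧ (∀ x, |F x| ≤ 1) ∧ ∀ x, f j x = F x)
    (hfc : ∀ j ∉ s, ∃ v : V, ∀ x, f j x = ex g v x) :
    ∀ᵐ x ∂μ, Cvg (fun m : κ → ℕ => (∏ j, f j (act.S (A j (toZ m)) x)).re) ∧
      Cvg (fun m : κ → ℕ => (∏ j, f j (act.S (A j (toZ m)) x)).im) := by
  induction s using Finset.induction_on generalizing f with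
  | empty =>
    choose v hv using fun j => hfc j (Finset.notMem_empty j)
    have h1 := gauss_exp g act S hS hSadd hB A v
    filter_upwards [h1] with x hx
    have e : ∀ m : κ → ℕ, ∏ j, f j (act.S (A j (toZ m)) x) =
        Complex.exp (((∑ j, g.G (v j) (act.S (A j (toZ m)) x) : ℝ) : ℂ) * Complex.I) := by
      intro m
      push_cast
      rw [Finset.sum_mul, Complex.exp_sum]
      exact Finset.prod_congr rfl fun j _ => hv j _
    constructor
    · refine hx.1.congr fun m => ?_
      rw [e, Complex.exp_ofReal_mul_I_re]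
    · refine hx.2.congr fun m => ?_
      rw [e, Complex.exp_ofReal_mul_I_im]
  | insert a s ha ih =>
    obtain ⟨F, hFm, hF1, hF⟩ := hfs a (Finset.mem_insert_self _ _)
    have hf1 : ∀ j x, ‖f j x‖ ≤ 1 := by
      intro j x
      by_cases hj : j ∈ insert a s
      · obtain ⟨F', -, hF'1, hF'⟩ := hfs j hj
        rw [hF', Complex.norm_real]
        exact hF'1 x
      · obtain ⟨v, hv⟩ := hfc j hj
        rw [hv]
        exact (norm_ex g v x).le
    set Rm : X → (κ → ℕ) → ℂ := fun x m =>
      ∏ j ∈ Finset.univ.erase a, f j (act.S (A j (toZ m)) x) with hRm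
    have hR1 : ∀ x m, ‖Rm x m‖ ≤ 1 := fun x m => norm_prod_le_one _ _ fun j => hf1 j _
    -- replace the function `a` by an exponential
    have hchar : ∀ v : V, ∀ᵐ x ∂μ,
        Cvg (fun m : κ → ℕ => (ex g v (act.S (A a (toZ m)) x) * Rm x m).re) ∧
        Cvg (fun m : κ → ℕ => (ex g v (act.S (A a (toZ m)) x) * Rm x m).im) := by
      intro v
      have h1 := ih (Function.update f a (ex g v)) (by
        intro j hj
        have hja : j ≠ a := fun h => ha (h ▸ hj)
        rw [Function.update_of_ne hja]
        exact hfs j (Finset.mem_insert_of_mem hj)) (by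
        intro j hj
        by_cases hja : j = a
        · subst hja
          exact ⟨v, fun x => by rw [Function.update_self]⟩
        · rw [Function.update_of_ne hja]
          exact hfc j fun h => (Finset.mem_insert.1 h).elim hja hj)
      have h2 : ∀ x (m : κ → ℕ), ∏ j, (Function.update f a (ex g v)) j
          (act.S (A j (toZ m)) x) = ex g v (act.S (A a (toZ m)) x) * Rm x m := by
        intro x m
        rw [← Finset.mul_prod_erase Finset.univ _ (Finset.mem_univ a), Function.update_self]
        congr 1
        refine Finset.prod_congr rfl fun j hj => ?_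
        rw [Function.update_of_ne (Finset.ne_of_mem_erase hj)]
      simp only [h2] at h1
      exact h1
    set Wt : X → Set ((κ → ℕ) → ℝ) := fun x => {fun m => (Rm x m).re, fun m => (Rm x m).im}
      with hWt
    have hWt1 : ∀ x, ∀ w ∈ Wt x, ∀ m, |w m| ≤ 1 := by
      rintro x w (rfl | rfl) m
      · exact (Complex.abs_re_le_norm _).trans (hR1 x m)
      · exact (Complex.abs_im_le_norm _).trans (hR1 x m)
    set U : (κ → ℕ) → X → X := fun m x => act.S (A a (toZ m)) x with hU
    have hU0 : ∀ x, U 0 x = x := by
      intro x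
      have : Pf720ae.toZ (0 : κ → ℕ) = 0 := by funext l; simp [Pf720ae.toZ]
      simp only [hU]
      rw [this, map_zero, act.zero]
    have hUadd : ∀ m n x, U (m + n) x = U m (U n x) := by
      intro m n x
      have : Pf720ae.toZ (m + n : κ → ℕ) = Pf720ae.toZ m + Pf720ae.toZ n := by
        funext l; simp [Pf720ae.toZ]
      simp only [hU]
      rw [this, map_add, act.add]
    have hUmp : ∀ m, MeasurePreserving (U m) μ μ := fun m => act.mp _
    have hgood : ∀ (b : Bool) (v : V), Cv μ U Wt (prt g b v) := by
      intro b v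
      filter_upwards [hchar v, hchar (-v)] with x h1 h2
      have e1 := (h1.1.add h2.1).smul (1 / 2)
      have e2 := (h2.1.add (h1.1.smul (-1))).smul (1 / 2)
      have e3 := (h1.2.add h2.2).smul (1 / 2)
      have e4 := (h1.2.add (h2.2.smul (-1))).smul (1 / 2)
      rintro w (rfl | rfl)
      · cases b
        · refine e4.congr fun m => ?_
          simp only [Complex.mul_im, ex_re, ex_im, G_neg, Real.cos_neg, Real.sin_neg,
            hU, prt]
          simp only [Bool.false_eq_true, if_false]
          ring
        · refine e1.congr fun m => ?_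
          simp only [Complex.mul_re, ex_re, ex_im, G_neg, Real.cos_neg, Real.sin_neg,
            hU, prt]
          simp only [if_true]
          ring
      · cases b
        · refine e2.congr fun m => ?_
          simp only [Complex.mul_re, ex_re, ex_im, G_neg, Real.cos_neg, Real.sin_neg,
            hU, prt]
          simp only [Bool.false_eq_true, if_false]
          ring
        · refine e3.congr fun m => ?_
          simp only [Complex.mul_im, ex_re, ex_im, G_neg, Real.cos_neg, Real.sin_neg,
            hU, prt]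
          simp only [if_true]
          ring
    have hFL : MemLp F 2 μ := MemLp.of_bound hFm.aestronglyMeasurable 1
      (Eventually.of_forall fun x => by simpa using hF1 x)
    have hmain : Cv μ U Wt F := by
      refine principle hU0 hUadd hUmp hWt1 (fun φ hφm hφL hφ => ?_) F hFL
      have hφ1 : Integrable φ μ := hφL.integrable one_le_two
      have hzero : φ =ᵐ[μ] 0 := by
        refine eq_zero_of_orth g hgen hφ1 (fun v => ?_) (fun v => ?_)
        · have := hφ _ (measurable_prt g true v) (abs_prt_le g true v) (hgood true v)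
          simpa [prt] using this
        · have := hφ _ (measurable_prt g false v) (abs_prt_le g false v) (hgood false v)
          simpa [prt] using this
      exact Cv.congr hUmp hzero.symm Cv.zero
    have hprod : ∀ x (m : κ → ℕ), ∏ j, f j (act.S (A j (toZ m)) x) =
        (F (act.S (A a (toZ m)) x) : ℂ) * Rm x m := by
      intro x m
      rw [← Finset.mul_prod_erase Finset.univ _ (Finset.mem_univ a), hF]
    filter_upwards [hmain] with x hx
    constructor
    · refine (hx _ (Set.mem_insert _ _)).congr fun m => ?_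
      rw [hprod, Complex.re_ofReal_mul]
    · refine (hx _ (Set.mem_insert_of_mem _ rfl)).congr fun m => ?_
      rw [hprod, Complex.im_ofReal_mul]

theorem gauss_real (g : GF V X μ) (hgen : mX ≤ ⨆ v, MeasurableSpace.comap (g.G v) (borel ℝ))
    (act : MAct Γ X μ) (S : Γ → V →ₗ[ℝ] V)
    (hS : ∀ w v x, g.G (S w v) x = g.G v (act.S w x))
    (hSadd : ∀ w w' v, S (w + w') v = S w (S w' v))
    (hB : ∀ w u v, g.B (S w u) (S w v) = g.B u v)
    (A : J → (κ → ℤ) →+ Γ) (F : J → X → ℝ) (hFm : ∀ j, Measurable (F j))
    (hF1 : ∀ j x, |F j x| ≤ 1) :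
    ∀ᵐ x ∂μ, Cvg fun m : κ → ℕ => ∏ j, F j (act.S (A j (toZ m)) x) := by
  have h1 := mixed (κ := κ) g hgen act S hS hSadd hB A Finset.univ
    (fun j x => (F j x : ℂ)) (fun j _ => ⟨F j, hFm j, hF1 j, fun x => rfl⟩)
    (fun j hj => absurd (Finset.mem_univ j) hj)
  filter_upwards [h1] with x hx
  refine hx.1.congr fun m => ?_
  rw [← Complex.ofReal_prod, Complex.ofReal_re]

end Pool.Agent.Lib.Pf720gs
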