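import Mathlib

/-!
# Equality of the laws of two real processes from their characteristic functionals
-/

set_option autoImplicit false
set_option linter.unusedSectionVars false

open MeasureTheory Filter Topology ProbabilityTheory
open scoped ENNReal

namespace Pool.Agent.Lib.Pf720gs

/-- laws on a finite product of lines -/
lemma pi_law_eq {ι : Type} [Fintype ι] {P P' : Measure (ι → ℝ)}
    [IsFiniteMeasure P] [IsFiniteMeasure P']
    (h : ∀ t : ι → ℝ, ∫ ω, Complex.exp (((∑ m, t m * ω m : ℝ) : ℂ) * Complex.I) ∂P =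
      ∫ ω, Complex.exp (((∑ m, t m * ω m : ℝ) : ℂ) * Complex.I) ∂P') : P = P' := by
  classical
  refine Measure.ext_of_charFunDual ?_
  funext L
  rw [charFunDual_apply, charFunDual_apply]
  have hL : ∀ ω : ι → ℝ, L ω = ∑ m, L (Pi.single m 1) * ω m := by
    intro ω
    have h1 : ω = ∑ m, ω m • (Pi.single m (1 : ℝ) : ι → ℝ) := by
      conv_lhs => rw [← Finset.univ_sum_single ω]
      refine Finset.sum_congr rfl fun m _ => ?_
      rw [← Pi.single_smul]
      simp
    conv_lhs => rw [h1]
    rw [map_sum]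
    refine Finset.sum_congr rfl fun m _ => ?_
    rw [map_smul, smul_eq_mul, mul_comm]
  have e : ∀ Q : Measure (ι → ℝ), ∫ v, Complex.exp ((L v : ℂ) * Complex.I) ∂Q =
      ∫ v, Complex.exp (((∑ m, L (Pi.single m 1) * v m : ℝ) : ℂ) * Complex.I) ∂Q := fun Q =>
    integral_congr_ae (Eventually.of_forall fun v => by
      simp only
      rw [← hL v])
  rw [e, e]
  exact h fun m => L (Pi.single m 1)

/-- Two real processes with the same characteristic functional have the same law. -/
theorem law_eq {ι Ω Ω' : Type} [MeasurableSpace Ω] [MeasurableSpace Ω'] {P : Measure Ω}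
    {P' : Measure Ω'} [IsFiniteMeasure P] [IsFiniteMeasure P'] {K : ι → Ω → ℝ}
    {K' : ι → Ω' → ℝ} (hK : ∀ m, Measurable (K m)) (hK' : ∀ m, Measurable (K' m))
    (h : ∀ (s : Finset ι) (t : ι → ℝ),
      ∫ ω, Complex.exp (((∑ m ∈ s, t m * K m ω : ℝ) : ℂ) * Complex.I) ∂P =
      ∫ ω, Complex.exp (((∑ m ∈ s, t m * K' m ω : ℝ) : ℂ) * Complex.I) ∂P') :
    P.map (fun ω m => K m ω) = P'.map (fun ω m => K' m ω) := by
  classical
  have hKm : Measurable fun ω m => K m ω := measurable_pi_iff.2 hK
  have hKm' : Measurable fun ω m => K' m ω := measurable_pi_iff.2 hK'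
  have : IsFiniteMeasure (P.map fun ω m => K m ω) :=
    Measure.isFiniteMeasure_map _ _
  have : IsFiniteMeasure (P'.map fun ω m => K' m ω) :=
    Measure.isFiniteMeasure_map _ _
  have key : ∀ I : Finset ι, P.map (fun ω ↦ I.restrict (K · ω)) =
      P'.map (fun ω ↦ I.restrict (K' · ω)) := by
    intro I
    have hr : Measurable fun ω ↦ I.restrict (K · ω) := (Finset.measurable_restrict I).comp hKm
    have hr' : Measurable fun ω ↦ I.restrict (K' · ω) := (Finset.measurable_restrict I).comp hKm'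
    have : IsFiniteMeasure (P.map fun ω ↦ I.restrict (K · ω)) :=
      Measure.isFiniteMeasure_map _ _
    have : IsFiniteMeasure (P'.map fun ω ↦ I.restrict (K' · ω)) :=
      Measure.isFiniteMeasure_map _ _
    refine pi_law_eq fun t => ?_
    have hexp : Measurable fun ω : I → ℝ =>
        Complex.exp (((∑ m, t m * ω m : ℝ) : ℂ) * Complex.I) := by fun_prop
    rw [integral_map hr.aemeasurable hexp.aestronglyMeasurable,
      integral_map hr'.aemeasurable hexp.aestronglyMeasurable]
    have e : ∀ {Ω₀ : Type} (k : ι → Ω₀ → ℝ) (ω : Ω₀), (∑ m : I, t m * I.restrict (k · ω) m) =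
        ∑ m ∈ I, (fun m => if hm : m ∈ I then t ⟨m, hm⟩ else 0) m * k m ω := by
      intro Ω₀ k ω
      rw [← Finset.sum_coe_sort I
        (fun m => (fun m => if hm : m ∈ I then t ⟨m, hm⟩ else 0) m * k m ω)]
      refine Finset.sum_congr rfl fun m _ => ?_
      simp
    simp only [e]
    exact h I fun m => if hm : m ∈ I then t ⟨m, hm⟩ else 0
  have h1 := isProjectiveLimit_map (X := K) (P := P) hKm.aemeasurable
  have h2 := isProjectiveLimit_map (X := K') (P := P') hKm'.aemeasurable
  simp_rw [key] at h1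
  exact h1.unique h2

/-- transfer of almost sure properties -/
theorem ae_transfer {ι Ω Ω' : Type} [MeasurableSpace Ω] [MeasurableSpace Ω'] {P : Measure Ω}
    {P' : Measure Ω'} {K : ι → Ω → ℝ} {K' : ι → Ω' → ℝ} (hK : ∀ m, Measurable (K m))
    (hK' : ∀ m, Measurable (K' m))
    (h : P.map (fun ω m => K m ω) = P'.map (fun ω m => K' m ω)) {D : Set (ι → ℝ)}
    (hD : MeasurableSet D) (hP : ∀ᵐ ω ∂P, (fun m => K m ω) ∈ D) :
    ∀ᵐ ω ∂P', (fun m => K' m ω) ∈ D := by
  have hKm : Measurable fun ω m => K m ω := measurable_pi_iff.2 hK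
  have hKm' : Measurable fun ω m => K' m ω := measurable_pi_iff.2 hK'
  have h1 : ∀ᵐ g ∂(P.map fun ω m => K m ω), g ∈ D := (ae_map_iff hKm.aemeasurable hD).2 hP
  rw [h] at h1
  exact (ae_map_iff hKm'.aemeasurable hD).1 h1

end Pool.Agent.Lib.Pf720gs
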