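import Pool.Agent.Lib.Pf720gs.GExp
import Pool.Agent.Lib.Pf720pp.Base
import Pool.Agent.Lib.Pf720ae.Osc.PolyConv

/-!
# Averages of exponentials of linear Gaussian families along polynomial exponents
-/

set_option autoImplicit false
set_option linter.unusedSectionVars false

open MeasureTheory Filter Topology ProbabilityTheory
open scoped ENNReal

namespace Pool.Agent.Lib.Pf720gs

open Pool.Agent.Lib.Pf720ae
open Pool.Agent.Lib.Pf720pp (PV ev)

variable {V X : Type} [AddCommGroup V] [Module ℝ V] {mX : MeasurableSpace X} {μ : Measure X}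
  [IsProbabilityMeasure μ] {κ : Type} [Fintype κ] [DecidableEq κ] {d : ℕ}

lemma ev_sub (q q' : κ → PV d) (m : κ → ℕ) : ev (fun l => q l - q' l) m = ev q m - ev q' m := by
  funext i
  simp only [ev, Pi.sub_apply, Polynomial.eval_sub, Finset.sum_sub_distrib]

/-- polynomial averages for several copies of an action -/
lemma pz (act : MAct (Fin d → ℤ) X μ) {C : Type} [Fintype C] (D : C → κ → PV d)
    {F : (C → X) → ℝ} (hF : Measurable F) (hF1 : ∀ ω, |F ω| ≤ 1) :
    ∀ᵐ ω ∂(Measure.pi fun _ : C => μ), Cvg fun m : κ → ℕ =>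
      F (fun c => act.S (ev (D c) m) (ω c)) := by
  classical
  set e : C × Fin d ≃ Fin (Fintype.card (C × Fin d)) := Fintype.equivFin _ with he
  set big : (Fin (Fintype.card (C × Fin d)) → ℤ) → (C → X) → (C → X) :=
    fun w ω c => act.S (fun i => w (e (c, i))) (ω c) with hbig
  have h0 : ∀ ω, big 0 ω = ω := by
    intro ω
    funext c
    exact act.zero _
  have hadd : ∀ p q ω, big (p + q) ω = big p (big q ω) := by
    intro p q ω
    funext c
    exact act.add _ _ _
  have hmp : ∀ p, MeasurePreserving (big p) (Measure.pi fun _ : C => μ)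
      (Measure.pi fun _ : C => μ) := fun p => measurePreserving_pi _ _ fun c => act.mp _
  have h1 := poly_bdd (κ := κ) h0 hadd hmp
    (fun l r => D (e.symm r).1 l (e.symm r).2) hF hF1
  filter_upwards [h1] with ω hω
  refine hω.congr fun m => ?_
  congr 1
  funext c
  simp only [hbig, Equiv.symm_apply_apply]
  rfl

variable {J : Type} [Fintype J] [DecidableEq J]

/-- The main step. -/
theorem gauss_expP (g : GF V X μ) (act : MAct (Fin d → ℤ) X μ) (S : (Fin d → ℤ) → V →ₗ[ℝ] V)
    (hS : ∀ w v x, g.G (S w v) x = g.G v (act.S w x))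
    (hSadd : ∀ w w' v, S (w + w') v = S w (S w' v))
    (hB : ∀ w u v, g.B (S w u) (S w v) = g.B u v)
    (q : J → κ → PV d) (h : J → V) :
    ∀ᵐ x ∂μ, CS fun m : κ → ℕ => ∑ j, g.G (h j) (act.S (ev (q j) m) x) := by
  have hQS : ∀ w v, g.Q (S w v) = g.Q v := fun w v => hB w v v
  -- the decoupled system
  set D : J ⊕ (J × J) → κ → PV d := Sum.elim q (fun p l => q p.2 l - q p.1 l) with hD
  have hDr : ∀ (p : J × J) (m : κ → ℕ), ev (D (Sum.inr p)) m = ev (q p.2) m - ev (q p.1) m :=
    fun p m => ev_sub _ _ _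
  set cst : ℝ := Real.sqrt (Fintype.card J) with hcst
  set σ : ℝ := Real.sqrt (1 / 2) with hσ
  have hcst2 : cst ^ 2 = (Fintype.card J : ℝ) := Real.sq_sqrt (by positivity)
  have hσ2 : σ ^ 2 = 1 / 2 := Real.sq_sqrt (by norm_num)
  set a : (κ → ℕ) → J ⊕ (J × J) → V := fun m => Sum.elim
    (fun j => cst • S (ev (q j) m) (h j))
    (fun p => σ • (S (ev (q p.2) m - ev (q p.1) m) (h p.2) + h p.1)) with ha
  have hdec : ∀ᵐ ω ∂(Measure.pi fun _ : J ⊕ (J × J) => μ),
      (fun m => g.GC (a m) ω) ∈ {k : (κ → ℕ) → ℝ | CS k} := by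
    set base : J ⊕ (J × J) → V := Sum.elim (fun j => cst • h j) (fun p => σ • h p.2) with hbase
    set ex : J ⊕ (J × J) → V := Sum.elim (fun _ => 0) (fun p => σ • h p.1) with hex
    have e1 : ∀ (m : κ → ℕ) ω, g.GC (a m) ω =
        g.GC base (fun c => act.S (ev (D c) m) (ω c)) + g.GC ex ω := by
      intro m ω
      unfold GF.GC
      rw [← Finset.sum_add_distrib]
      refine Finset.sum_congr rfl fun c _ => ?_
      rcases c with j | p
      · simp only [ha, hbase, hex, Sum.elim_inl, hD]
        rw [g.smul, hS, g.smul, g.zero, add_zero]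
      · simp only [ha, hbase, hex, Sum.elim_inr, hDr]
        rw [g.smul, g.add, hS, g.smul, g.smul, mul_add]
    have h1 := pz (κ := κ) act D (F := fun ω => Real.cos (g.GC base ω))
      (Real.measurable_cos.comp (g.measurable_GC base)) (fun ω => Real.abs_cos_le_one _)
    have h2 := pz (κ := κ) act D (F := fun ω => Real.sin (g.GC base ω))
      (Real.measurable_sin.comp (g.measurable_GC base)) (fun ω => Real.abs_sin_le_one _)
    filter_upwards [h1, h2] with ω hc hs
    constructor
    · refine ((hc.smul (Real.cos (g.GC ex ω))).add (hs.smul (-Real.sin (g.GC ex ω)))).congr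
        fun m => ?_
      show _ = Real.cos (g.GC (a m) ω)
      rw [e1, Real.cos_add]
      ring
    · refine ((hs.smul (Real.cos (g.GC ex ω))).add (hc.smul (Real.sin (g.GC ex ω)))).congr
        fun m => ?_
      show _ = Real.sin (g.GC (a m) ω)
      rw [e1, Real.sin_add]
      ring
  -- the coupled system
  set v : (κ → ℕ) → V := fun m => ∑ j, S (ev (q j) m) (h j) with hv
  set b : (κ → ℕ) → (J × J) ⊕ (J × J) → V := fun m => Sum.elim
    (fun p => σ • (S (ev (q p.1) m) (h p.1) - S (ev (q p.2) m) (h p.2)))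
    (fun p => σ • (S (ev (q p.2) m - ev (q p.1) m) (h p.2) + h p.1)) with hb
  have hlaw : (Measure.pi fun _ : J ⊕ (J × J) => μ).map (fun ω m => g.GC (a m) ω) =
      (μ.prod (Measure.pi fun _ : (J × J) ⊕ (J × J) => μ)).map
        (fun p m => g.G (v m) p.1 + g.GC (b m) p.2) := by
    refine law_eq (fun m => g.measurable_GC _)
      (fun m => ((g.meas _).comp measurable_fst).add ((g.measurable_GC _).comp measurable_snd)) ?_
    intro s t
    have e1 : ∀ ω, ∑ m ∈ s, t m * g.GC (a m) ω = g.GC (fun c => ∑ m ∈ s, t m • a m c) ω :=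
      fun ω => g.GC_sum s t a ω
    have e2 : ∀ p : X × ((J × J) ⊕ (J × J) → X),
        ∑ m ∈ s, t m * (g.G (v m) p.1 + g.GC (b m) p.2) =
          g.G (∑ m ∈ s, t m • v m) p.1 + g.GC (fun c => ∑ m ∈ s, t m • b m c) p.2 := by
      intro p
      rw [← g.GC_sum, g.sum]
      simp only [g.smul, mul_add, Finset.sum_add_distrib]
    simp only [e1, e2]
    rw [g.char_GC, g.char_prod]
    congr 3
    -- the quadratic forms agree
    set U : J → V := fun j => ∑ m ∈ s, t m • S (ev (q j) m) (h j) with hU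
    have f1 : ∀ j, (∑ m ∈ s, t m • a m (Sum.inl j)) = cst • U j := by
      intro j
      simp only [ha, Sum.elim_inl, hU, Finset.smul_sum]
      exact Finset.sum_congr rfl fun m _ => smul_comm _ _ _
    have f2 : ∀ p : J × J, (∑ m ∈ s, t m • b m (Sum.inl p)) = σ • (U p.1 - U p.2) := by
      intro p
      simp only [hb, Sum.elim_inl, hU, ← Finset.sum_sub_distrib, Finset.smul_sum, ← smul_sub]
      exact Finset.sum_congr rfl fun m _ => smul_comm _ _ _
    have f3 : (∑ m ∈ s, t m • v m) = ∑ j, U j := by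
      simp only [hv, hU, Finset.smul_sum]
      rw [Finset.sum_comm]
    have f4 : ∀ p : J × J, (∑ m ∈ s, t m • a m (Sum.inr p)) = ∑ m ∈ s, t m • b m (Sum.inr p) := by
      intro p
      rfl
    rw [Fintype.sum_sum_type, Fintype.sum_sum_type, f3]
    simp only [f1, f2, f4, g.Q_smul, hcst2, hσ2]
    rw [Fintype.sum_prod_type (f := fun p : J × J => 1 / 2 * g.Q (U p.1 - U p.2))]
    have h3 := g.lagrange U
    simp only [← Finset.mul_sum] at h3 ⊢
    rw [← add_assoc, h3]
  have hcoup := ae_transfer (fun m => g.measurable_GC _)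
    (fun m => ((g.meas _).comp measurable_fst).add ((g.measurable_GC _).comp measurable_snd))
    hlaw measurableSet_CS hdec
  -- integrate out the copies
  have hfub : ∀ᵐ x ∂μ, ∀ᵐ ω ∂(Measure.pi fun _ : (J × J) ⊕ (J × J) => μ),
      CS fun m => g.G (v m) x + g.GC (b m) ω := Measure.ae_ae_of_ae_prod hcoup
  have hconst : ∀ m, ∑ c, g.Q (b m c) = ∑ p : J × J, (g.Q (h p.1) + g.Q (h p.2)) := by
    intro m
    rw [Fintype.sum_sum_type, ← Finset.sum_add_distrib]
    refine Finset.sum_congr rfl fun p _ => ?_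
    simp only [hb, Sum.elim_inl, Sum.elim_inr]
    rw [g.Q_smul, g.Q_smul, hσ2, ← hQS (ev (q p.1) m)
      (S (ev (q p.2) m - ev (q p.1) m) (h p.2) + h p.1), map_add, ← hSadd,
      add_sub_cancel, g.Q_add, g.Q_sub, hQS, hQS,
      g.Bsymm (S (ev (q p.2) m) (h p.2)) (S (ev (q p.1) m) (h p.1))]
    ring
  filter_upwards [hfub] with x hx
  have h1 := CS_of_ae_prod (P := Measure.pi fun _ : (J × J) ⊕ (J × J) => μ)
    (k := fun m => g.G (v m) x) (r := fun m ω => g.GC (b m) ω) (fun m => g.measurable_GC _)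
    (c := Real.exp (-(∑ p : J × J, (g.Q (h p.1) + g.Q (h p.2))) / 2)) (Real.exp_pos _).ne'
    (fun m => by rw [← hconst m]; exact (g.integral_cos_sin (b m) _).1)
    (fun m => by rw [← hconst m]; exact (g.integral_cos_sin (b m) _).2) hx
  have h2 : (fun m : κ → ℕ => g.G (v m) x) =
      fun m : κ → ℕ => ∑ j, g.G (h j) (act.S (ev (q j) m) x) := by
    funext m
    simp only [hv, g.sum, hS]
  rwa [h2] at h1

end Pool.Agent.Lib.Pf720gs
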