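import Pool.Agent.Lib.Pf720gs.PMain
import Pool.Agent.Lib.Pf720gs.GFinal
import Pool.Agent.Lib.Pf720pp.Factor

/-!
# Gaussian factors of actions of `ℤ^d`, polynomial exponents
-/

set_option autoImplicit false
set_option linter.unusedSectionVars false

open MeasureTheory Filter Topology ProbabilityTheory
open scoped ENNReal

namespace Pool.Agent.Lib.Pf720gs

open Pool.Agent.Lib.Pf720ae Pool.Agent.Lib.Pf720pi
open Pool.Agent.Lib.Pf720pp (PV ev PolR PolC polC_of_polR unc)

/-- passing from a trimmed measure to the measure -/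
lemma polC_of_trim {X : Type} (m : MeasurableSpace X) {mX : MeasurableSpace X} {μ : Measure X}
    [IsProbabilityMeasure μ] {d : ℕ} (T : Fin d → Equiv.Perm X)
    (hT : ∀ i, Measurable (T i) ∧ Measurable (T i).symm ∧ MeasurePreserving (T i) μ μ)
    (K : Set ℕ) (Q : Set (PV d))
    (hm : m ≤ mX) (h : @PolC X m (μ.trim hm) d T K Q m) : PolC μ T K Q m := by
  intro k hk n q f hqQ hf
  choose hfL hfm using hf
  set g : Fin n → X → ℂ := fun j => (hfm j).mk (f j) with hg
  have hgm : ∀ j, StronglyMeasurable[m] (g j) := fun j => (hfm j).stronglyMeasurable_mk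
  have hfg : ∀ j, f j =ᵐ[μ] g j := fun j => (hfm j).ae_eq_mk
  have hgL : ∀ j, eLpNorm (g j) ⊤ (μ.trim hm) < ⊤ := by
    intro j
    rw [eLpNorm_trim hm (hgm j), ← eLpNorm_congr_ae (hfg j)]
    exact (hfL j).2
  have h1 := h k hk n q g hqQ (fun j => ⟨⟨(hgm j).aestronglyMeasurable, hgL j⟩,
    (hgm j).aestronglyMeasurable⟩)
  have h2 := ae_of_ae_trim hm h1
  have hrep : ∀ᵐ x ∂μ, ∀ (j : Fin n) (w : Fin d → ℤ), f j (pw T w x) = g j (pw T w x) := by
    simp only [ae_all_iff]
    exact fun j w => (mp_pw T hT w).quasiMeasurePreserving.ae (hfg j)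
  filter_upwards [h2, hrep] with x hx hr
  obtain ⟨L, hL⟩ := hx
  refine ⟨L, hL.congr fun M => ?_⟩
  simp only [hr]

lemma gauss_trimP {V X : Type} [AddCommGroup V] [Module ℝ V] (m : MeasurableSpace X)
    {mX : MeasurableSpace X} {μ : Measure X} [IsProbabilityMeasure μ] {d : ℕ}
    (g : GF V X μ) (act : MAct (Fin d → ℤ) X μ) (S : (Fin d → ℤ) → V →ₗ[ℝ] V)
    (hS : ∀ w v x, g.G (S w v) x = g.G v (act.S w x))
    (hSadd : ∀ w w' v, S (w + w') v = S w (S w' v))
    (hB : ∀ w u v, g.B (S w u) (S w v) = g.B u v)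
    (hm : m = ⨆ v, MeasurableSpace.comap (g.G v) (borel ℝ)) (hmX : m ≤ mX)
    (hact : ∀ w, Measurable[m, m] (act.S w)) (K : Set ℕ) (Q : Set (PV d)) :
    @PolR X m (μ.trim hmX) d K Q act.S m := by
  intro κ _ _ J _ _ q F _ _ hFm hF1
  have hgm : ∀ v, Measurable[m] (g.G v) := by
    intro v
    rw [hm]
    exact measurable_iSup_comap g.G v
  have : @IsProbabilityMeasure X m (μ.trim hmX) := by
    refine @IsProbabilityMeasure.mk X m _ ?_
    rw [trim_measurableSet_eq hmX (@MeasurableSet.univ X m)]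
    exact measure_univ
  exact @gauss_realP V X _ _ m (μ.trim hmX) _ κ _ _ d J _ _ (g.trim m hmX hgm)
    hm.le (trimAct m act hmX hact) S hS hSadd hB q F hFm hF1

/-- Gaussian factors -/
theorem gauss_polC {X : Type} {mX : MeasurableSpace X} {μ : Measure X} [IsProbabilityMeasure μ]
    {d : ℕ} (T : Fin d → Equiv.Perm X)
    (hT : ∀ i, Measurable (T i) ∧ Measurable (T i).symm ∧ MeasurePreserving (T i) μ μ)
    (hcomm : ∀ i i', T i * T i' = T i' * T i) {I : Type} (ξ : I → X → ℝ)
    (hξm : ∀ i, Measurable (ξ i))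
    (hξ : IsGaussianProcess (fun (p : I × (Fin d → ℤ)) x => ξ p.1 (pw T p.2 x)) μ)
    (K : Set ℕ) (Q : Set (PV d)) :
    PolC μ T K Q (⨆ p : I × (Fin d → ℤ),
      MeasurableSpace.comap (fun x => ξ p.1 (pw T p.2 x)) (borel ℝ)) := by
  set ζ : I × (Fin d → ℤ) → X → ℝ := fun p x => ξ p.1 (pw T p.2 x) with hζ
  have hζm : ∀ p, Measurable (ζ p) := fun p => (hξm _).comp (mp_pw T hT _).measurable
  set act : MAct (Fin d → ℤ) X μ := permAct T hT hcomm with hactdef
  set g : GF ((I × (Fin d → ℤ)) →₀ ℝ) X μ := fam hζm hξ with hg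
  set S : (Fin d → ℤ) → ((I × (Fin d → ℤ)) →₀ ℝ) →ₗ[ℝ] ((I × (Fin d → ℤ)) →₀ ℝ) :=
    fun w => Finsupp.lmapDomain ℝ ℝ (fun p => (p.1, p.2 + w)) with hSdef
  have hζS : ∀ (p : I × (Fin d → ℤ)) w x, ζ (p.1, p.2 + w) x = ζ p (act.S w x) := by
    intro p w x
    simp only [hζ, hactdef, permAct]
    rw [pw_add T hcomm]
    rfl
  have hlcS : ∀ w v x, lc ζ (S w v) x = lc ζ v (act.S w x) := by
    intro w v x
    induction v using Finsupp.induction_linear with
    | zero => simp [lc]
    | add u v hu hv => rw [map_add, lc_add, lc_add, hu, hv]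
    | single p c =>
      have e : (Finsupp.single p c : (I × (Fin d → ℤ)) →₀ ℝ) = c • Finsupp.single p 1 := by
        rw [Finsupp.smul_single, smul_eq_mul, mul_one]
      have e2 : S w (Finsupp.single p 1) = Finsupp.single (p.1, p.2 + w) 1 := by
        simp only [hSdef, Finsupp.lmapDomain_apply, Finsupp.mapDomain_single]
      rw [e, map_smul, lc_smul, lc_smul, e2, lc_single, lc_single, hζS]
  have hS : ∀ w v x, g.G (S w v) x = g.G v (act.S w x) := by
    intro w v x
    show lc ζ (S w v) x - ∫ z, lc ζ (S w v) z ∂μ = lc ζ v (act.S w x) - ∫ z, lc ζ v z ∂μ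
    rw [hlcS]
    simp only [hlcS]
    rw [act.integral_comp w (measurable_lc hζm v)]
  have hSadd : ∀ w w' v, S (w + w') v = S w (S w' v) := by
    intro w w' v
    simp only [hSdef, Finsupp.lmapDomain_apply]
    rw [← Finsupp.mapDomain_comp]
    congr 1
    funext p
    simp only [Function.comp]
    rw [add_assoc, add_comm w' w]
  have hB : ∀ w u v, g.B (S w u) (S w v) = g.B u v := by
    intro w u v
    show ∫ x, g.G (S w u) x * g.G (S w v) x ∂μ = ∫ x, g.G u x * g.G v x ∂μ
    simp only [hS]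
    exact act.integral_comp w (f := fun x => g.G u x * g.G v x) ((g.meas u).mul (g.meas v))
  -- the generated σ-algebra
  have hmX : (⨆ v, MeasurableSpace.comap (g.G v) (borel ℝ)) ≤ mX :=
    iSup_le fun v => comap_le_of_measurable (g.meas v)
  have hact : ∀ w, Measurable[⨆ v, MeasurableSpace.comap (g.G v) (borel ℝ),
      ⨆ v, MeasurableSpace.comap (g.G v) (borel ℝ)] (act.S w) := by
    intro w
    rw [measurable_iff_comap_le, MeasurableSpace.comap_iSup]
    refine iSup_le fun v => ?_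
    rw [MeasurableSpace.comap_comp]
    have e : g.G v ∘ act.S w = g.G (S w v) := by
      funext x
      exact (hS w v x).symm
    rw [e]
    exact le_iSup (fun v => MeasurableSpace.comap (g.G v) (borel ℝ)) (S w v)
  have hle : (⨆ p : I × (Fin d → ℤ), MeasurableSpace.comap (ζ p) (borel ℝ)) ≤
      ⨆ v, MeasurableSpace.comap (g.G v) (borel ℝ) := by
    refine iSup_le fun p => ?_
    have e : ζ p = fun x => g.G (Finsupp.single p 1) x + ∫ z, ζ p z ∂μ := by
      funext x
      show ζ p x = (lc ζ (Finsupp.single p 1) x - ∫ z, lc ζ (Finsupp.single p 1) z ∂μ) + _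
      simp only [lc_single]
      ring
    refine comap_le_of_measurable ?_
    rw [e]
    exact (measurable_iSup_comap g.G _).add_const _
  -- convergence for the generated σ-algebra
  have hR := gauss_trimP _ g act S hS hSadd hB rfl hmX hact K (unc '' Q)
  have hprob : @IsProbabilityMeasure X _ (μ.trim hmX) := by
    refine @IsProbabilityMeasure.mk X _ _ ?_
    rw [trim_measurableSet_eq hmX (@MeasurableSet.univ X _)]
    exact measure_univ
  have hT' : ∀ i, Measurable[⨆ v, MeasurableSpace.comap (g.G v) (borel ℝ),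
      ⨆ v, MeasurableSpace.comap (g.G v) (borel ℝ)] (T i) ∧
      Measurable[⨆ v, MeasurableSpace.comap (g.G v) (borel ℝ),
      ⨆ v, MeasurableSpace.comap (g.G v) (borel ℝ)] (T i).symm := by
    intro i
    have h1 := hact (Pi.single i 1)
    have h2 := hact (Pi.single i (-1))
    simp only [hactdef, permAct, pw_single, zpow_one, zpow_neg] at h1 h2
    exact ⟨h1, h2⟩
  have hC := @polC_of_polR X _ (μ.trim hmX) hprob d T (fun i => ⟨(hT' i).1, (hT' i).2,
    mp_trim _ hmX (hT i).2.2 (hT' i).1⟩) hcomm K Q hR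
  have hC2 := polC_of_trim _ T hT K Q hmX hC
  intro k hk n q f hqQ hf
  exact hC2 k hk n q f hqQ fun j => ⟨(hf j).1, (hf j).2.mono hle⟩

end Pool.Agent.Lib.Pf720gs
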